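import Pool.Agent.LibHPF.Defs

/-!
Chains of moves: definitions.
-/

set_option autoImplicit false
open Polynomial

namespace Pool.Agent.LibHP

/-- `y` lies in the field generated by `x` over (the image of) `F`. -/
def GenBy {F Ω : Type} [Field F] [Field Ω] (ε : F →+* Ω) (x y : Ω) : Prop :=
  y ∈ Subfield.closure (Set.range ε ∪ {x})

/-- Linear disjointness of two fields `L`, `K` over `k` inside `G`. -/
def LinDisj (k : Type) {L K G : Type} [Field k] [Field L] [Field K] [Field G] [Algebra k K]
    (a : L →+* G) (b : K →+* G) : Prop :=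
  ∀ (n : ℕ) (l : Fin n → L) (c : Fin n → K), LinearIndependent k c →
    ∑ j, a (l j) * b (c j) = 0 → ∀ j, l j = 0

/-- The family of rational varieties `σ : K → M(u_1, ..., u_r)` with base points `i : K → M`:
the generic member of the family is regular at `u = 0`, with value the point `i`. -/
def IsMove {K M : Type} [Field K] [Field M] {r : ℕ} (i : K →+* M) (σ : K →+* RF M r) : Prop :=
  ∀ a, HasVal (σ a) (i a)

/-- The points `y` and `y'` of `X` over `E` are the base point and a point of a member of the
family. -/
def Move {K M : Type} [Field K] [Field M] {r : ℕ} (i : K →+* M) (σ : K →+* RF M r)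
    {k E : Type} [Field k] [Field E] [Algebra k M] [Algebra k E] (y y' : K →+* E) : Prop :=
  ∃ θ : RF M r →ₐ[k] E, (∀ a, θ (algebraMap M (RF M r) (i a)) = y a) ∧ ∀ a, θ (σ a) = y' a

/-- `y` and `y'` are joined by a chain of moves. -/
def Chain (k : Type) {K M : Type} [Field K] [Field M] {r : ℕ} (i : K →+* M) (σ : K →+* RF M r)
    {E : Type} [Field k] [Field E] [Algebra k M] [Algebra k E] : (K →+* E) → (K →+* E) → Prop :=
  Relation.TransGen fun y y' => Move (k := k) i σ y y' ∨ Move (k := k) i σ y' y

/-- Every root of `q` over `y` generates over `E` the same field as some root of `q` over `y'`. -/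
def SameRoots {K E : Type} [Field K] [Field E] (q : K[X]) (y y' : K →+* E) : Prop :=
  ∀ x : AlgebraicClosure E, q.eval₂ ((algebraMap E (AlgebraicClosure E)).comp y) x = 0 →
    ∃ x' : AlgebraicClosure E, q.eval₂ ((algebraMap E (AlgebraicClosure E)).comp y') x' = 0 ∧
      GenBy (algebraMap E (AlgebraicClosure E)) x x' ∧
      GenBy (algebraMap E (AlgebraicClosure E)) x' x

end Pool.Agent.LibHP
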