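import Pool.Agent.LibCH33.R11

set_option autoImplicit false
open AlgebraicGeometry CategoryTheory

namespace Pool.Agent.Results.MP_87f965_ag.ChainCriterion

open Pool.Agent.LibHP in
/-- **Chains of rational varieties and the Hilbert property.** Let `k` be a number field, `X` a smooth
integral scheme over `k` and `K` its function field. Let `M` be the function field of a variety over
`k` with dense rational points (`DensePts k M`) which parametrises rational varieties (for `r = 1`:
rational curves) in `X` through given points: `i : K → M` is the given point and `σ : K → M(u)`,
`u = (u_1, ..., u_r)`, is the generic point of the generic member of the family, with value `i` at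
`u = 0`. Suppose that two general points of `X` are joined by a chain of members of this family, and
that the chains through two general points form a geometrically irreducible variety: there are a field
`E` over `k` (the function field of a variety of chains) and points `y`, `y' : K → E` of `X` over `E`
(the ends of the generic chain) joined by finitely many moves (`Chain`: pairs `(θ i, θ σ)`,
`θ : M(u) → E`, in either order) such that `(y, y')` is a generic point of `X × X` and the field
generated by `y (K)` and `y' (K)` is algebraically closed in `E`. Then `X` has the Hilbert property:
the rational points outside the images of the rational points of finitely many nontrivial finite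
covers are dense.

Nothing is assumed about the fundamental group of `X`, about prime divisors of `X` or about rational
points on the variety of chains. -/
theorem result :
    ∀ (k : Type) [Field k] [NumberField k] (X : Scheme) [AlgebraicGeometry.IsIntegral X]
      (f : X ⟶ Spec (CommRingCat.of k)),
      AlgebraicGeometry.Smooth f →
      (∃ (M : Type) (_ : Field M) (_ : Algebra k M) (E : Type) (_ : Field E) (_ : Algebra k E)
        (r : ℕ), ChainJoined f M E r) →
      ∀ (n : ℕ) (Y : Fin n → Scheme) (π : ∀ i, Y i ⟶ X),
        (∀ i, AlgebraicGeometry.IsIntegral (Y i)) →
        (∀ i, AlgebraicGeometry.IsFinite (π i)) →
        (∀ i, AlgebraicGeometry.Surjective (π i)) →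
        (∀ i, ¬ IsIso (π i)) →
        Dense {x : X | ∃ s : Spec (CommRingCat.of k) ⟶ X, s ≫ f = 𝟙 _ ∧
          x ∈ Set.range s.base ∧
          ∀ i (t : Spec (CommRingCat.of k) ⟶ Y i), t ≫ π i ≠ s} := by
  intro k _ _ X _ f h1 ⟨M, _, _, E, _, _, r, H⟩
  exact main_chain k f M E r H

end Pool.Agent.Results.MP_87f965_ag.ChainCriterion
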