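import Pool.Agent.LibCH33.Defs
import Pool.Agent.LibHP2.A1

/-!
CH R1. The roots of `q` in `Mbar(u)` have values at the origin; these are roots of the specialised
polynomial, and different roots have different values.

Plan. Write `s := sbar σ`, `t := (algebraMap M Mbar).comp i`, `Ω := RF Mbar r`. `HasVal (s a) (t a)` for all `a`
(`HasVal.map`, `sbar` is `(rfmap ..).comp σ`). `z j` is integral over `valRing Mbar r` (`q.map` of the
codomain restriction of `s` to `valRing`; monic), so `exists_hasVal_of_isIntegral` gives `v j`. For every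
polynomial `p : K[X]` and `HasVal x y`: `HasVal (p.eval₂ s x) (p.eval₂ t y)` (induction on `p`: `HasVal.add`, `HasVal.mul`,
powers), so `HasVal 0 (q.eval₂ t (v j))`, and `HasVal 0 0` (`HasVal.const 0`), `HasVal.unique`: root.
Injectivity: `q.map s` is monic of degree `d` with `d` different roots, so `q.map s = ∏ j, (X - C (z j))`
(e.g. `Polynomial.prod_multiset_X_sub_C_of_monic_of_roots_card_eq`, or `Finset.prod_dvd_of_coprime` and degrees). Evaluate at the
constant `c ∈ Mbar` and take values: `(q.map t).eval c = ∏ j, (c - v j)` for all `c` in the infinite field `Mbar`, so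
`q.map t = ∏ j, (X - C (v j))` (`Polynomial.funext`). `q.map t` is separable (`hq.separable.map`, characteristic zero), so `v` is
injective (`Polynomial.separable_prod_X_sub_C_iff`).
-/

set_option autoImplicit false
open Polynomial

namespace Pool.Agent.LibHP

private theorem R1_pow {E : Type} [Field E] {r : ℕ} {f : RF E r} {a : E} (h : HasVal f a) (n : ℕ) :
    HasVal (f ^ n) (a ^ n) := by
  induction n with
  | zero =>
    rw [pow_zero, pow_zero]
    simpa using HasVal.const (r := r) (1 : E)
  | succ n ih =>
    rw [pow_succ, pow_succ]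
    exact ih.mul h

private theorem R1_sub {E : Type} [Field E] {r : ℕ} {f g : RF E r} {a b : E} (h : HasVal f a)
    (h' : HasVal g b) : HasVal (f - g) (a - b) := by
  rw [sub_eq_add_neg, sub_eq_add_neg]
  exact h.add h'.neg

private theorem R1_prod {E ι : Type} [Field E] {r : ℕ} (s : Finset ι) (f : ι → RF E r) (a : ι → E)
    (h : ∀ i, HasVal (f i) (a i)) : HasVal (∏ i ∈ s, f i) (∏ i ∈ s, a i) := by
  classical
  induction s using Finset.induction_on with
  | empty =>
    rw [Finset.prod_empty, Finset.prod_empty]
    simpa using HasVal.const (r := r) (1 : E)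
  | insert j s hj ih =>
    rw [Finset.prod_insert hj, Finset.prod_insert hj]
    exact (h j).mul ih

private theorem R1_eval {K E : Type} [Field K] [Field E] {r : ℕ} (s : K →+* RF E r) (t : K →+* E)
    (hst : ∀ a, HasVal (s a) (t a)) (p : K[X]) {x : RF E r} {y : E} (hxy : HasVal x y) :
    HasVal (p.eval₂ s x) (p.eval₂ t y) := by
  induction p using Polynomial.induction_on' with
  | add p q hp hq =>
    rw [Polynomial.eval₂_add, Polynomial.eval₂_add]
    exact hp.add hq
  | monomial n a =>
    rw [Polynomial.eval₂_monomial, Polynomial.eval₂_monomial]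
    exact (hst a).mul (R1_pow hxy n)

theorem exists_vals {K M : Type} [Field K] [CharZero K] [Field M] {r : ℕ} (i : K →+* M)
    (σ : K →+* RF M r) (hσ : IsMove i σ) (q : K[X]) (hm : q.Monic) (hq : Irreducible q)
    (z : Fin q.natDegree → RF (AlgebraicClosure M) r) (hz : Function.Injective z)
    (hroot : ∀ j, q.eval₂ (sbar σ) (z j) = 0) :
    ∃ v : Fin q.natDegree → AlgebraicClosure M, Function.Injective v ∧
      ∀ j, HasVal (z j) (v j) ∧ q.eval₂ ((algebraMap M (AlgebraicClosure M)).comp i) (v j) = 0 := by
  obtain ⟨s, hs⟩ : ∃ s : K →+* RF (AlgebraicClosure M) r, s = sbar σ := ⟨_, rfl⟩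
  obtain ⟨t, ht⟩ : ∃ t : K →+* AlgebraicClosure M, t = (algebraMap M (AlgebraicClosure M)).comp i :=
    ⟨_, rfl⟩
  have hst : ∀ a, HasVal (s a) (t a) := by
    intro a
    rw [hs, ht]
    exact (hσ a).map (algebraMap M (AlgebraicClosure M))
  rw [← hs] at hroot
  rw [← ht]
  -- values of the roots
  let sV : K →+* valRing (AlgebraicClosure M) r := s.codRestrict _ fun a => ⟨t a, hst a⟩
  have hcomp : (algebraMap (valRing (AlgebraicClosure M) r) (RF (AlgebraicClosure M) r)).comp sV = s := by
    ext a
    rfl
  have hint : ∀ j, IsIntegral (valRing (AlgebraicClosure M) r) (z j) := by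
    intro j
    refine ⟨q.map sV, hm.map sV, ?_⟩
    rw [Polynomial.eval₂_map, hcomp]
    exact hroot j
  choose v hv using fun j => exists_hasVal_of_isIntegral (z j) (hint j)
  have hvroot : ∀ j, q.eval₂ t (v j) = 0 := by
    intro j
    have h1 := R1_eval s t hst q (hv j)
    rw [hroot j] at h1
    have h2 : HasVal (0 : RF (AlgebraicClosure M) r) (0 : AlgebraicClosure M) := by
      simpa using HasVal.const (r := r) (0 : AlgebraicClosure M)
    exact h1.unique h2
  refine ⟨v, ?_, fun j => ⟨hv j, hvroot j⟩⟩
  -- factorization
  have hfac : q.map s = ∏ j, (X - C (z j)) := by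
    refine Polynomial.eq_of_monic_of_dvd_of_natDegree_le (Polynomial.monic_prod_of_monic _ _
      fun j _ => Polynomial.monic_X_sub_C (z j)) (hm.map s) ?_ ?_
    · refine Finset.prod_dvd_of_coprime ?_ fun j _ => ?_
      · intro a _ b _ hab
        exact Polynomial.pairwise_coprime_X_sub_C hz hab
      · rw [Polynomial.dvd_iff_isRoot, Polynomial.IsRoot.def, Polynomial.eval_map]
        exact hroot j
    · rw [hm.natDegree_map, Polynomial.natDegree_prod_of_monic _ _
        fun j _ => Polynomial.monic_X_sub_C (z j)]
      simp
  have : CharZero M := charZero_of_injective_ringHom i.injective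
  have : CharZero (AlgebraicClosure M) :=
    charZero_of_injective_algebraMap (algebraMap M (AlgebraicClosure M)).injective
  have hfac' : q.map t = ∏ j, (X - C (v j)) := by
    apply Polynomial.funext
    intro c
    rw [Polynomial.eval_map, Polynomial.eval_prod]
    have h1 := R1_eval s t hst q (HasVal.const (r := r) c)
    rw [← Polynomial.eval_map, hfac, Polynomial.eval_prod] at h1
    have h2 := R1_prod Finset.univ
      (fun j => Polynomial.eval (algebraMap (AlgebraicClosure M) (RF (AlgebraicClosure M) r) c)
        (X - C (z j))) (fun j => Polynomial.eval c (X - C (v j))) (fun j => by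
          rw [Polynomial.eval_sub, Polynomial.eval_X, Polynomial.eval_C, Polynomial.eval_sub,
            Polynomial.eval_X, Polynomial.eval_C]
          exact R1_sub (HasVal.const c) (hv j))
    exact h1.unique h2
  have hsep : (q.map t).Separable := hq.separable.map
  rw [hfac', Polynomial.separable_prod_X_sub_C_iff] at hsep
  exact hsep

end Pool.Agent.LibHP
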