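import Pool.Agent.LibCH33.R8
import Pool.Agent.LibHP2.A1

/-!
CH R10. Dense points of `K`, and `K` is algebraically closed in `M(u)`.
-/

set_option autoImplicit false
open Polynomial TensorProduct

namespace Pool.Agent.LibHP

theorem DensePts.of_hom {k K M : Type} [Field k] [Field K] [Field M] [Algebra k K] [Algebra k M]
    (hM : DensePts k M) (i : K →ₐ[k] M) : DensePts k K := by
  intro R hR a ha
  have h1 : (R.map i).FG := hR.map i
  have h2 : (⟨i (a : K), Subalgebra.mem_map.2 ⟨a, a.2, rfl⟩⟩ : R.map i) ≠ 0 := by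
    intro h0
    apply ha
    have h3 : i (a : K) = 0 := congrArg Subtype.val h0
    have h4 : (a : K) = 0 := i.toRingHom.injective (by rw [map_zero]; exact h3)
    exact Subtype.ext h4
  obtain ⟨φ, hφ⟩ := hM (R.map i) h1 _ h2
  let j : R →ₐ[k] R.map i := (i.comp R.val).codRestrict (R.map i) fun x =>
    Subalgebra.mem_map.2 ⟨x, x.2, rfl⟩
  exact ⟨φ.comp j, hφ⟩

theorem closed_const {k K : Type} [Field k] [Field K] [Algebra k K] (hK : DensePts k K) (α : K)
    (h : ∃ P : k[X], P ≠ 0 ∧ P.eval₂ (algebraMap k K) α = 0) : ∃ c, algebraMap k K c = α := by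
  classical
  by_contra hcon
  push Not at hcon
  obtain ⟨P, hP, hPα⟩ := h
  let R : Subalgebra k K := Algebra.adjoin k {α}
  have hR : R.FG := Subalgebra.fg_adjoin_finset {α} |> fun h => by simpa using h
  let β : R := ⟨α, Algebra.subset_adjoin rfl⟩
  let a : R := ∏ c ∈ P.roots.toFinset, (β - algebraMap k R c)
  have ha : a ≠ 0 := by
    refine Finset.prod_ne_zero_iff.2 fun c _ h0 => ?_
    have h1 : α - algebraMap k K c = 0 := congrArg Subtype.val h0
    exact hcon c (sub_eq_zero.1 h1).symm
  obtain ⟨φ, hφ⟩ := hK R hR a ha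
  apply hφ
  have h1 : P.eval (φ β) = 0 := by
    have h2 : aeval β P = 0 := by
      apply Subtype.ext
      have h3 : ((aeval β P : R) : K) = aeval α P := by
        have := Polynomial.aeval_algHom_apply R.val β P
        exact this.symm
      rw [h3]
      exact hPα
    have h4 := Polynomial.aeval_algHom_apply φ β P
    rw [h2, map_zero] at h4
    rwa [Polynomial.coe_aeval_eq_eval] at h4
  rw [map_prod]
  refine Finset.prod_eq_zero (i := φ β) ?_ ?_
  · rw [Multiset.mem_toFinset, mem_roots hP]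
    exact h1
  · rw [map_sub, AlgHom.commutes, Algebra.algebraMap_self, RingHom.id_apply, sub_self]

/-- values of polynomials -/
theorem R10_val {K M : Type} [Field K] [Field M] {r : ℕ} {i : K →+* M} {σ : K →+* RF M r}
    (hσ : IsMove i σ) {x : RF M r} {v : M} (hx : HasVal x v) (P : K[X]) :
    HasVal (P.eval₂ σ x) (P.eval₂ i v) := by
  have hpow : ∀ n : ℕ, HasVal (x ^ n) (v ^ n) := by
    intro n
    induction n with
    | zero =>
      have h1 := HasVal.const (K := M) (r := r) 1
      rw [map_one] at h1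
      rw [pow_zero, pow_zero]
      exact h1
    | succ n ih =>
      rw [pow_succ, pow_succ]
      exact ih.mul hx
  induction P using Polynomial.induction_on' with
  | add p q hp hq =>
    rw [eval₂_add, eval₂_add]
    exact hp.add hq
  | monomial n a =>
    rw [eval₂_monomial, eval₂_monomial]
    exact (hσ a).mul (hpow n)

/-- the closedness of the base point gives the closedness of the family -/
theorem R10_closed {K M : Type} [Field K] [Field M] {r : ℕ} {i : K →+* M} {σ : K →+* RF M r}
    (hσ : IsMove i σ) (hi : ∀ m : M, (∃ P : K[X], P ≠ 0 ∧ P.eval₂ i m = 0) → ∃ c, i c = m) :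
    ClosedIn σ := by
  rintro e ⟨P, hP, hPe⟩
  let _ : Algebra K (RF M r) := σ.toAlgebra
  have hint : IsIntegral K e := by
    rw [← isAlgebraic_iff_isIntegral]
    exact ⟨P, hP, hPe⟩
  set Q := minpoly K e with hQ
  have hQm : Q.Monic := minpoly.monic hint
  have hQi : Irreducible Q := minpoly.irreducible hint
  have hQe : Q.eval₂ σ e = 0 := minpoly.aeval K e
  let τ : K →+* valRing M r := σ.codRestrict (valRing M r) fun a => ⟨i a, hσ a⟩
  have h1 : IsIntegral (valRing M r) e := by
    refine ⟨Q.map τ, hQm.map τ, ?_⟩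
    rw [eval₂_map]
    exact hQe
  obtain ⟨m, hm⟩ := exists_hasVal_of_isIntegral e h1
  have h2 := R10_val hσ hm Q
  rw [hQe] at h2
  have h3 : Q.eval₂ i m = 0 := by
    have h4 := HasVal.const (K := M) (r := r) 0
    rw [map_zero] at h4
    exact h2.unique h4
  obtain ⟨a, ha⟩ := hi m ⟨Q, hQi.ne_zero, h3⟩
  have h5 : Q.IsRoot a := by
    rw [← ha] at h3
    have h6 : i (Q.eval a) = 0 := by
      rw [← h3]
      exact (Polynomial.eval₂_at_apply i a).symm
    exact (map_eq_zero _).1 h6
  have h6 : Q = X - C a := by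
    have h7 := (dvd_iff_isRoot.2 h5)
    have h8 : Associated (X - C a) Q :=
      (Polynomial.irreducible_X_sub_C a).associated_of_dvd hQi h7
    exact (eq_of_monic_of_associated (monic_X_sub_C a) hQm h8).symm
  refine ⟨a, ?_⟩
  rw [h6] at hQe
  simp only [eval₂_sub, eval₂_X, eval₂_C] at hQe
  exact (sub_eq_zero.1 hQe).symm

theorem closedIn_of_chain {k K M E : Type} [Field k] [CharZero k] [Field K] [Field M] [Field E]
    [Algebra k K] [Algebra k M] [Algebra k E] {r : ℕ} (i : K →ₐ[k] M) (σ : K →ₐ[k] RF M r)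
    (hσ : IsMove (i : K →+* M) (σ : K →+* RF M r)) (hM : DensePts k M) (y y' : K →ₐ[k] E)
    (hd : LinDisj k (y : K →+* E) (y' : K →+* E))
    (hcl : ∀ e : E, IsAlgebraic (Subfield.closure (Set.range y ∪ Set.range y')) e →
      e ∈ Subfield.closure (Set.range y ∪ Set.range y'))
    (h : Chain k (i : K →+* M) (σ : K →+* RF M r) (y : K →+* E) (y' : K →+* E)) :
    ClosedIn (σ : K →+* RF M r) := by
  have hK : DensePts k K := hM.of_hom i
  -- `y (K)` is algebraically closed in `E`
  have hy : ∀ e : E, (∃ P : K[X], P ≠ 0 ∧ P.eval₂ (y : K →+* E) e = 0) → ∃ c, y c = e := by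
    rintro e ⟨P, hP, hPe⟩
    have he : e ∈ Subfield.closure (Set.range y ∪ Set.range y') := by
      apply hcl
      let τ : K →+* Subfield.closure (Set.range y ∪ Set.range y') :=
        (y : K →+* E).codRestrict _ fun a => Subfield.subset_closure (Or.inl ⟨a, rfl⟩)
      refine ⟨P.map τ, (Polynomial.map_ne_zero_iff τ.injective).2 hP, ?_⟩
      rw [aeval_def, eval₂_map]
      exact hPe
    have hd' : LinDisj k (y' : K →+* E) (y : K →+* E) := LinDisj.symm y y' hd
    refine closed_of_linDisj hK (fun α hα => closed_const hK α hα) y' y hd' e ?_ ⟨P, hP, hPe⟩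
    rw [Set.union_comm]
    exact he
  -- the first step
  have hfirst : ∃ z : K →+* E, Move (k := k) (i : K →+* M) (σ : K →+* RF M r) (y : K →+* E) z ∨
      Move (k := k) (i : K →+* M) (σ : K →+* RF M r) z (y : K →+* E) := by
    obtain ⟨z, hz, -⟩ := Relation.TransGen.head'_iff.1 h
    exact ⟨z, hz⟩
  obtain ⟨z, ⟨θ, h1, h2⟩ | ⟨θ, h1, h2⟩⟩ := hfirst
  · -- `y = θ ∘ algebraMap ∘ i`
    apply R10_closed hσ
    rintro m ⟨P, hP, hPm⟩
    obtain ⟨c, hc⟩ := hy (θ (algebraMap M (RF M r) m)) ⟨P, hP, by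
      have e1 : (y : K →+* E) = ((θ : RF M r →+* E).comp (algebraMap M (RF M r))).comp
          (i : K →+* M) := RingHom.ext fun a => (h1 a).symm
      have e2 : θ (algebraMap M (RF M r) m) =
          ((θ : RF M r →+* E).comp (algebraMap M (RF M r))) m := rfl
      rw [e1, e2, ← Polynomial.hom_eval₂, hPm, map_zero]⟩
    refine ⟨c, ?_⟩
    have h3 : θ (algebraMap M (RF M r) (i c)) = θ (algebraMap M (RF M r) m) := by
      rw [← hc]
      exact h1 c
    exact (algebraMap M (RF M r)).injective ((θ : RF M r →+* E).injective h3)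
  · -- `y = θ ∘ σ`
    rintro e ⟨P, hP, hPe⟩
    obtain ⟨c, hc⟩ := hy (θ e) ⟨P, hP, by
      have e1 : (y : K →+* E) = (θ : RF M r →+* E).comp (σ : K →+* RF M r) :=
        RingHom.ext fun a => (h2 a).symm
      have e2 : θ e = (θ : RF M r →+* E) e := rfl
      rw [e1, e2, ← Polynomial.hom_eval₂, hPe, map_zero]⟩
    refine ⟨c, ?_⟩
    have h3 : θ (σ c) = θ e := by
      rw [← hc]
      exact h2 c
    exact (θ : RF M r →+* E).injective h3

end Pool.Agent.LibHP
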