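import Pool.Agent.LibCH33.R4

/-!
CH R5. Chains of moves.

Plan. `GenBy` is transitive (`genBy_trans`: `z ∈ F(y)`, `y ∈ F(x)` give `z ∈ F(x)`, `Subfield.closure_le`), so `SameRoots` is transitive; for
a `Move` use `sameRoots_of_move` with `θ` (as a ring homomorphism; `y = θ ∘ algebraMap ∘ i`, `y' = θ ∘ σ` by `RingHom.ext`), in both directions; induction
on `Relation.TransGen`.
-/

set_option autoImplicit false
open Polynomial

namespace Pool.Agent.LibHP

theorem R5_trans {F Ω : Type} [Field F] [Field Ω] {ε : F →+* Ω} {x y z : Ω} (h : GenBy ε x y)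
    (h' : GenBy ε y z) : GenBy ε x z := by
  have h1 : Subfield.closure (Set.range ε ∪ {y}) ≤ Subfield.closure (Set.range ε ∪ {x}) := by
    rw [Subfield.closure_le]
    rintro w (hw | hw)
    · exact Subfield.subset_closure (Or.inl hw)
    · rw [Set.mem_singleton_iff] at hw
      rw [hw]
      exact h
  exact h1 h'

theorem R5_same {K E : Type} [Field K] [Field E] {q : K[X]} {y y' y'' : K →+* E}
    (h : SameRoots q y y') (h' : SameRoots q y' y'') : SameRoots q y y'' := by
  intro x hx
  obtain ⟨x', hx', h1, h2⟩ := h x hx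
  obtain ⟨x'', hx'', h3, h4⟩ := h' x' hx'
  exact ⟨x'', hx'', R5_trans h1 h3, R5_trans h4 h2⟩

theorem sameRoots_of_chain {k K M : Type} [Field k] [Field K] [CharZero K] [Field M] [Algebra k M]
    {r : ℕ} (i : K →+* M) (σ : K →+* RF M r) (hσ : IsMove i σ) (q : K[X]) (hm : q.Monic)
    [Fact (Irreducible q)] (hL : AllEmb σ (AdjoinRoot q)) {E : Type} [Field E] [Algebra k E]
    (y y' : K →+* E) (h : Chain k i σ y y') : SameRoots q y y' := by
  have key : ∀ z z' : K →+* E, (Move (k := k) i σ z z' → SameRoots q z z' ∧ SameRoots q z' z) := by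
    rintro z z' ⟨θ, h1, h2⟩
    have e1 : z = ((θ : RF M r →+* E).comp ((algebraMap M (RF M r)).comp i)) :=
      RingHom.ext fun a => (h1 a).symm
    have e2 : z' = ((θ : RF M r →+* E).comp σ) := RingHom.ext fun a => (h2 a).symm
    have h3 := sameRoots_of_move i σ hσ q hm hL (θ : RF M r →+* E)
    rw [e1, e2]
    exact ⟨h3.2, h3.1⟩
  have step : ∀ z z' : K →+* E, (Move (k := k) i σ z z' ∨ Move (k := k) i σ z' z) →
      SameRoots q z z' := by
    rintro z z' (h1 | h1)
    · exact (key z z' h1).1
    · exact (key z' z h1).2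
  induction h with
  | single h1 => exact step _ _ h1
  | tail _ h1 ih => exact R5_same ih (step _ _ h1)

end Pool.Agent.LibHP
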