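import Pool.Agent.LibCH33.R7

/-!
CH R8. `K` is algebraically closed in the field of fractions of `L ⊗ K`, if `k` is algebraically closed in `L` and `K` has dense
`k`-points.
-/

set_option autoImplicit false
open Polynomial TensorProduct

namespace Pool.Agent.LibHP

/-- elements of the tensor product as sums over a basis of `L` -/
theorem R8_sum {k L N I : Type} [DecidableEq I] [Field k] [Field L] [CommRing N] [Algebra k L] [Algebra k N]
    (B : Module.Basis I k L) (F : Finset I) (t : L ⊗[k] N) (r : I →₀ N)
    (hr : r = TensorProduct.equivFinsuppOfBasisLeft B t) (hF : r.support ⊆ F) :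
    t = ∑ i ∈ F, B i ⊗ₜ[k] r i := by
  have h1 : t = (TensorProduct.equivFinsuppOfBasisLeft B).symm r := by
    rw [hr, LinearEquiv.symm_apply_apply]
  rw [h1, TensorProduct.equivFinsuppOfBasisLeft_symm_apply]
  exact Finsupp.sum_of_support_subset r hF _ fun i _ => TensorProduct.tmul_zero _ _

theorem closed_of_linDisj {k L K G : Type} [Field k] [Field L] [Field K] [Field G] [Algebra k L]
    [Algebra k K] [Algebra k G] (hK : DensePts k K)
    (hL : ∀ α : L, (∃ P : k[X], P ≠ 0 ∧ P.eval₂ (algebraMap k L) α = 0) →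
      ∃ c, algebraMap k L c = α)
    (a : L →ₐ[k] G) (b : K →ₐ[k] G) (hd : LinDisj k (a : L →+* G) (b : K →+* G)) (e : G)
    (he : e ∈ Subfield.closure (Set.range a ∪ Set.range b))
    (halg : ∃ P : K[X], P ≠ 0 ∧ P.eval₂ (b : K →+* G) e = 0) : ∃ c, b c = e := by
  classical
  set μ := Algebra.TensorProduct.productMap a b with hμ
  have hinj : Function.Injective μ := LinDisj.injective a b hd
  obtain ⟨t, t', ht', hee⟩ := exists_frac_of_closure a b e he
  rw [← hμ] at ht' hee
  let B := Module.Free.chooseBasis k L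
  set Φ := TensorProduct.equivFinsuppOfBasisLeft (N := K) B with hΦ
  set r := Φ t with hr
  set s := Φ t' with hs
  have ht'0 : t' ≠ 0 := by
    rintro rfl
    exact ht' (map_zero μ)
  have hs0 : s ≠ 0 := by
    rw [hs]
    exact (LinearEquiv.map_ne_zero_iff Φ).2 ht'0
  obtain ⟨j0, hj0⟩ : ∃ j, s j ≠ 0 := by
    by_contra hcon
    push Not at hcon
    exact hs0 (Finsupp.ext hcon)
  set F := r.support ∪ s.support with hF
  have et : t = ∑ i ∈ F, B i ⊗ₜ[k] r i := R8_sum B F t r hr Finset.subset_union_left
  have et' : t' = ∑ i ∈ F, B i ⊗ₜ[k] s i := R8_sum B F t' s hs Finset.subset_union_right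
  have hμt : μ t = ∑ i ∈ F, a (B i) * b (r i) := by
    conv_lhs => rw [et]
    rw [map_sum]
    exact Finset.sum_congr rfl fun i _ => Algebra.TensorProduct.productMap_apply_tmul a b _ _
  have hμt' : μ t' = ∑ i ∈ F, a (B i) * b (s i) := by
    conv_lhs => rw [et']
    rw [map_sum]
    exact Finset.sum_congr rfl fun i _ => Algebra.TensorProduct.productMap_apply_tmul a b _ _
  by_cases hall : ∀ i, r i * s j0 = r j0 * s i
  · refine ⟨r j0 / s j0, ?_⟩
    have hb : b (s j0) ≠ 0 := (map_ne_zero b).2 hj0
    rw [map_div₀, div_eq_iff hb]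
    apply mul_right_cancel₀ ht'
    have h1 : e * b (s j0) * μ t' = μ t * b (s j0) := by rw [← hee]; ring
    rw [h1, hμt, hμt', Finset.sum_mul, Finset.mul_sum]
    refine Finset.sum_congr rfl fun i _ => ?_
    have h2 : b (r j0) * b (s i) = b (r i) * b (s j0) := by
      rw [← map_mul, ← map_mul, hall i]
    calc b (r j0) * (a (B i) * b (s i)) = a (B i) * (b (r j0) * b (s i)) := by ring
      _ = a (B i) * b (r i) * b (s j0) := by rw [h2]; ring
  · exfalso
    push Not at hall
    obtain ⟨i0, hi0⟩ := hall
    -- minimal polynomial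
    obtain ⟨Q, hQm, hQe⟩ : ∃ Q : K[X], Q.Monic ∧ Q.eval₂ (b : K →+* G) e = 0 := by
      let _ : Algebra K G := (b : K →+* G).toAlgebra
      obtain ⟨P, hP, hPe⟩ := halg
      have h1 : IsIntegral K e := by
        rw [← isAlgebraic_iff_isIntegral]
        exact ⟨P, hP, hPe⟩
      exact ⟨minpoly K e, minpoly.monic h1, minpoly.aeval K e⟩
    -- the finitely generated subalgebra
    let S : Finset K := (F.image r ∪ F.image s) ∪ Q.coeffs
    let R : Subalgebra k K := Algebra.adjoin k (S : Set K)
    have hR : R.FG := Subalgebra.fg_adjoin_finset S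
    have hrR : ∀ i, r i ∈ R := by
      intro i
      by_cases hi : i ∈ F
      · exact Algebra.subset_adjoin (Finset.mem_coe.2 (Finset.mem_union_left _
          (Finset.mem_union_left _ (Finset.mem_image_of_mem _ hi))))
      · have h1 : r i = 0 := by
          by_contra h2
          exact hi (Finset.mem_union_left _ (Finsupp.mem_support_iff.2 h2))
        rw [h1]
        exact zero_mem R
    have hsR : ∀ i, s i ∈ R := by
      intro i
      by_cases hi : i ∈ F
      · exact Algebra.subset_adjoin (Finset.mem_coe.2 (Finset.mem_union_left _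
          (Finset.mem_union_right _ (Finset.mem_image_of_mem _ hi))))
      · have h1 : s i = 0 := by
          by_contra h2
          exact hi (Finset.mem_union_right _ (Finsupp.mem_support_iff.2 h2))
        rw [h1]
        exact zero_mem R
    have hQR : ∀ m, Q.coeff m ∈ R := by
      intro m
      by_cases hm : Q.coeff m = 0
      · rw [hm]
        exact zero_mem R
      · exact Algebra.subset_adjoin (Finset.mem_coe.2 (Finset.mem_union_right _
          (Polynomial.coeff_mem_coeffs hm)))
    let rR : Module.Free.ChooseBasisIndex k L → R := fun i => ⟨r i, hrR i⟩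
    let sR : Module.Free.ChooseBasisIndex k L → R := fun i => ⟨s i, hsR i⟩
    let QR : ℕ → R := fun m => ⟨Q.coeff m, hQR m⟩
    let δ : R := sR j0 * (rR i0 * sR j0 - rR j0 * sR i0)
    have hδ : δ ≠ 0 := by
      intro h0
      have h1 : s j0 * (r i0 * s j0 - r j0 * s i0) = 0 := congrArg Subtype.val h0
      rcases mul_eq_zero.1 h1 with h2 | h2
      · exact hj0 h2
      · exact hi0 (sub_eq_zero.1 h2)
    obtain ⟨φ, hφ⟩ := hK R hR δ hδ
    -- the identity
    let n := Q.natDegree
    have hid : ∑ m ∈ Finset.range (n + 1),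
        ((1 : L) ⊗ₜ[k] Q.coeff m) * t ^ m * t' ^ (n - m) = 0 := by
      apply hinj
      rw [map_zero, map_sum]
      have h1 : ∀ m ∈ Finset.range (n + 1),
          μ (((1 : L) ⊗ₜ[k] Q.coeff m) * t ^ m * t' ^ (n - m)) =
            (μ t') ^ n * (b (Q.coeff m) * e ^ m) := by
        intro m hm
        have hm' : m ≤ n := Nat.lt_succ_iff.1 (Finset.mem_range.1 hm)
        rw [map_mul, map_mul, map_pow, map_pow, hμ, Algebra.TensorProduct.productMap_apply_tmul,
          map_one, one_mul, ← hμ, ← hee, mul_pow]
        have h2 : (μ t') ^ n = (μ t') ^ m * (μ t') ^ (n - m) := by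
          rw [← pow_add, Nat.add_sub_cancel' hm']
        rw [h2]
        ring
      rw [Finset.sum_congr rfl h1, ← Finset.mul_sum]
      have h3 : ∑ m ∈ Finset.range (n + 1), b (Q.coeff m) * e ^ m = 0 := by
        rw [← hQe, Polynomial.eval₂_eq_sum_range]
        rfl
      rw [h3, mul_zero]
    -- the same in `L ⊗ R`
    let ι : L ⊗[k] R →ₐ[k] L ⊗[k] K := Algebra.TensorProduct.map (AlgHom.id k L) R.val
    have hι : Function.Injective ι := by
      have h1 := Module.Flat.lTensor_preserves_injective_linearMap (M := L) R.val.toLinearMap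
        Subtype.val_injective
      exact h1
    let tR : L ⊗[k] R := ∑ i ∈ F, B i ⊗ₜ[k] rR i
    let tR' : L ⊗[k] R := ∑ i ∈ F, B i ⊗ₜ[k] sR i
    have h1 : ι tR = t := by
      rw [et, map_sum]
      rfl
    have h2 : ι tR' = t' := by
      rw [et', map_sum]
      rfl
    have hidR : ∑ m ∈ Finset.range (n + 1),
        ((1 : L) ⊗ₜ[k] QR m) * tR ^ m * tR' ^ (n - m) = 0 := by
      apply hι
      rw [map_zero, ← hid, map_sum]
      refine Finset.sum_congr rfl fun m _ => ?_
      rw [map_mul, map_mul, map_pow, map_pow, h1, h2]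
      rfl
    -- the specialisation
    let ψ : L ⊗[k] R →ₐ[k] L :=
      Algebra.TensorProduct.productMap (AlgHom.id k L) ((Algebra.ofId k L).comp φ)
    have hψ : ∀ (l : L) (x : R), ψ (l ⊗ₜ[k] x) = φ x • l := by
      intro l x
      rw [Algebra.smul_def, mul_comm]
      exact Algebra.TensorProduct.productMap_apply_tmul _ _ _ _
    set T := ψ tR with hT
    set T' := ψ tR' with hT'
    have eT : T = ∑ i ∈ F, φ (rR i) • B i := by
      rw [hT, map_sum]
      exact Finset.sum_congr rfl fun i _ => hψ _ _
    have eT' : T' = ∑ i ∈ F, φ (sR i) • B i := by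
      rw [hT', map_sum]
      exact Finset.sum_congr rfl fun i _ => hψ _ _
    have hcoef : ∀ (v : Module.Free.ChooseBasisIndex k L → R) (i : Module.Free.ChooseBasisIndex k L),
        (i ∉ F → v i = 0) → B.repr (∑ i ∈ F, φ (v i) • B i) i = φ (v i) := by
      intro v i hv
      rw [map_sum, Finsupp.finsetSum_apply]
      simp only [map_smul, Module.Basis.repr_self, Finsupp.smul_single, smul_eq_mul, mul_one,
        Finsupp.single_apply]
      rw [Finset.sum_ite_eq']
      by_cases hi : i ∈ F
      · rw [if_pos hi]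
      · rw [if_neg hi, hv hi, map_zero]
    have hr0 : ∀ i, i ∉ F → rR i = 0 := by
      intro i hi
      apply Subtype.ext
      by_contra h3
      exact hi (Finset.mem_union_left _ (Finsupp.mem_support_iff.2 h3))
    have hs0' : ∀ i, i ∉ F → sR i = 0 := by
      intro i hi
      apply Subtype.ext
      by_contra h3
      exact hi (Finset.mem_union_right _ (Finsupp.mem_support_iff.2 h3))
    have hφs : φ (sR j0) ≠ 0 := by
      intro h3
      apply hφ
      rw [map_mul, h3, zero_mul]
    have hT'0 : T' ≠ 0 := by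
      intro h3
      apply hφs
      rw [← hcoef sR j0 (hs0' j0), ← eT', h3, map_zero, Finsupp.zero_apply]
    have hsp : ∑ m ∈ Finset.range (n + 1),
        algebraMap k L (φ (QR m)) * T ^ m * T' ^ (n - m) = 0 := by
      have h3 := congrArg ψ hidR
      rw [map_zero, map_sum] at h3
      rw [← h3]
      refine Finset.sum_congr rfl fun m _ => ?_
      rw [map_mul, map_mul, map_pow, map_pow, hψ, Algebra.smul_def, mul_one]
    -- the polynomial over `k`
    let P : k[X] := ∑ m ∈ Finset.range (n + 1), monomial m (φ (QR m))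
    have hPn : P.coeff n = 1 := by
      rw [Polynomial.finsetSum_coeff]
      simp only [Polynomial.coeff_monomial]
      rw [Finset.sum_ite_eq' (Finset.range (n + 1)) n (fun m => φ (QR m)),
        if_pos (Finset.mem_range.2 (Nat.lt_succ_self n))]
      have h3 : QR n = 1 := Subtype.ext hQm
      rw [h3, map_one]
    have hP0 : P ≠ 0 := by
      intro h3
      rw [h3, Polynomial.coeff_zero] at hPn
      exact zero_ne_one hPn
    have hPe : P.eval₂ (algebraMap k L) (T / T') = 0 := by
      have h3 : P.eval₂ (algebraMap k L) (T / T') * T' ^ n = 0 := by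
        rw [Polynomial.eval₂_finsetSum, Finset.sum_mul, ← hsp]
        refine Finset.sum_congr rfl fun m hm => ?_
        have hm' : m ≤ n := Nat.lt_succ_iff.1 (Finset.mem_range.1 hm)
        rw [Polynomial.eval₂_monomial, div_pow]
        have h4 : T' ^ n = T' ^ m * T' ^ (n - m) := by
          rw [← pow_add, Nat.add_sub_cancel' hm']
        rw [h4]
        have h5 : T' ^ m ≠ 0 := pow_ne_zero m hT'0
        field_simp
      exact (mul_eq_zero.1 h3).resolve_right (pow_ne_zero n hT'0)
    obtain ⟨c, hc⟩ := hL (T / T') ⟨P, hP0, hPe⟩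
    have hTT : T = c • T' := by
      rw [Algebra.smul_def, hc, div_mul_cancel₀ _ hT'0]
    have hrs : ∀ i, φ (rR i) = c * φ (sR i) := by
      intro i
      rw [← hcoef rR i (hr0 i), ← eT, hTT, map_smul, Finsupp.smul_apply, smul_eq_mul, eT',
        hcoef sR i (hs0' i)]
    apply hφ
    rw [map_mul, map_sub, map_mul, map_mul, hrs i0, hrs j0]
    ring

end Pool.Agent.LibHP
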