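import Pool.Agent.LibCH33.R6
import Pool.Agent.LibCH33.R8

/-!
CH R9. The contradiction.
-/

set_option autoImplicit false
open Polynomial TensorProduct

namespace Pool.Agent.LibHP

theorem R9_zero {F Ω : Type} [Field F] [Field Ω] (η : F →+* Ω) (Q : F[X]) (hQ : Irreducible Q)
    (hm : Q.Monic) (ζ : Ω) (hζ : Q.eval₂ η ζ = 0) (W : F[X]) (hW : W.eval₂ η ζ = 0)
    (hdeg : W.degree < Q.degree) : W = 0 := by
  let _ : Algebra F Ω := η.toAlgebra
  have h1 : Q = minpoly F ζ := minpoly.eq_of_irreducible_of_monic hQ hζ hm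
  have h2 : Q ∣ W := h1 ▸ minpoly.dvd F ζ hW
  exact Polynomial.eq_zero_of_dvd_of_degree_lt h2 hdeg

theorem R9_rep {K : Type} [Field K] (q : K[X]) (hm : q.Monic) (hq0 : q ≠ 1) (l : AdjoinRoot q) :
    ∃ p : K[X], p.degree < q.degree ∧ AdjoinRoot.mk q p = l := by
  obtain ⟨P, rfl⟩ := AdjoinRoot.mk_surjective l
  refine ⟨P %ₘ q, Polynomial.degree_modByMonic_lt P hm, ?_⟩
  rw [AdjoinRoot.mk_eq_mk]
  have h1 := Polynomial.modByMonic_add_div P q
  refine ⟨-(P /ₘ q), ?_⟩
  nth_rewrite 2 [← h1]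
  ring

theorem no_cover {k K E : Type} [Field k] [CharZero k] [Field K] [Field E] [Algebra k K]
    [Algebra k E] (hK : DensePts k K) (y y' : K →ₐ[k] E)
    (hd : LinDisj k (y : K →+* E) (y' : K →+* E))
    (hcl : ∀ e : E, IsAlgebraic (Subfield.closure (Set.range y ∪ Set.range y')) e →
      e ∈ Subfield.closure (Set.range y ∪ Set.range y'))
    (q : K[X]) (hm : q.Monic) [Fact (Irreducible q)] (h2 : 2 ≤ q.natDegree)
    (hL : ∀ α : AdjoinRoot q, (∃ h : k[X], h ≠ 0 ∧
      h.eval₂ ((algebraMap K (AdjoinRoot q)).comp (algebraMap k K)) α = 0) →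
      ∃ c : k, algebraMap K (AdjoinRoot q) (algebraMap k K c) = α)
    (hs : SameRoots q (y : K →+* E) (y' : K →+* E)) : False := by
  classical
  have hq : Irreducible q := Fact.out
  set Ω := AlgebraicClosure E with hΩ
  set ε : E →+* Ω := algebraMap E Ω with hε
  set F : Subfield E := Subfield.closure (Set.range y ∪ Set.range y') with hF
  set ι : F →+* E := F.subtype with hι
  have hyF : ∀ c, y c ∈ F := fun c => Subfield.subset_closure (Or.inl ⟨c, rfl⟩)
  have hyF' : ∀ c, y' c ∈ F := fun c => Subfield.subset_closure (Or.inr ⟨c, rfl⟩)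
  set yF : K →+* F := (y : K →+* E).codRestrict F hyF with hyFd
  set yF' : K →+* F := (y' : K →+* E).codRestrict F hyF' with hyFd'
  have hιy : ι.comp yF = (y : K →+* E) := RingHom.ext fun a => rfl
  have hιy' : ι.comp yF' = (y' : K →+* E) := RingHom.ext fun a => rfl
  -- the closedness statement
  have hclF : ∀ e : E, (∃ P : F[X], P ≠ 0 ∧ P.eval₂ ι e = 0) → ∃ a, ι a = e := by
    rintro e ⟨P, hP, hP0⟩
    exact ⟨⟨e, hcl e ⟨P, hP, hP0⟩⟩, rfl⟩
  -- the roots
  have hdeg : (q.map (ε.comp (y : K →+* E))).degree ≠ 0 := by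
    rw [Polynomial.degree_map, Polynomial.degree_eq_natDegree hq.ne_zero]
    have : q.natDegree ≠ 0 := by omega
    exact_mod_cast this
  obtain ⟨ζ, hζ⟩ := IsAlgClosed.exists_root (q.map (ε.comp (y : K →+* E))) hdeg
  rw [Polynomial.IsRoot, Polynomial.eval_map] at hζ
  obtain ⟨ζ', hζ', hg, -⟩ := hs ζ hζ
  have hζF : (q.map yF).eval₂ (ε.comp ι) ζ = 0 := by
    rw [Polynomial.eval₂_map, RingHom.comp_assoc, hιy]
    exact hζ
  have hζF' : (q.map yF').eval₂ (ε.comp ι) ζ' = 0 := by
    rw [Polynomial.eval₂_map, RingHom.comp_assoc, hιy']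
    exact hζ'
  have hcF : CharZero F := by
    have : CharZero E := charZero_of_injective_algebraMap (algebraMap k E).injective
    exact charZero_of_injective_ringHom (f := (algebraMap k E).codRestrict F (by
      intro c
      rw [← y.commutes c]
      exact hyF _)) (RingHom.injective _)
  have hgF : GenBy (ε.comp ι) ζ ζ' := genBy_of_closed ι ε hclF ζ ζ'
    ⟨q.map yF, (hm.map yF).ne_zero, hζF⟩ ⟨q.map yF', (hm.map yF').ne_zero, hζF'⟩ hg
  -- the field `L`
  have hL' : ∀ α : AdjoinRoot q, (∃ P : k[X], P ≠ 0 ∧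
      P.eval₂ (algebraMap k (AdjoinRoot q)) α = 0) → ∃ c, algebraMap k (AdjoinRoot q) c = α := by
    rintro α ⟨P, hP, hP0⟩
    rw [IsScalarTower.algebraMap_eq k K (AdjoinRoot q)] at hP0
    obtain ⟨c, hc⟩ := hL α ⟨P, hP, hP0⟩
    exact ⟨c, by rw [IsScalarTower.algebraMap_apply k K (AdjoinRoot q)]; exact hc⟩
  have hK0 : ∀ α : K, (∃ P : k[X], P ≠ 0 ∧ P.eval₂ (algebraMap k K) α = 0) →
      ∃ c, algebraMap k K c = α := by
    rintro α ⟨P, hP, hP0⟩
    obtain ⟨c, hc⟩ := hL' (algebraMap K (AdjoinRoot q) α) ⟨P, hP, by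
      rw [IsScalarTower.algebraMap_eq k K (AdjoinRoot q), ← Polynomial.hom_eval₂, hP0, map_zero]⟩
    refine ⟨c, (algebraMap K (AdjoinRoot q)).injective ?_⟩
    rw [← IsScalarTower.algebraMap_apply k K (AdjoinRoot q)]
    exact hc
  set iy : K →ₐ[k] Ω := (IsScalarTower.toAlgHom k E Ω).comp y with hiy
  set b : K →ₐ[k] Ω := (IsScalarTower.toAlgHom k E Ω).comp y' with hb
  have hζi : q.eval₂ (iy : K →+* Ω) ζ = 0 := hζ
  set a : AdjoinRoot q →ₐ[k] Ω := AdjoinRoot.liftAlgHom q iy ζ hζi with ha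
  have haK : ∀ c, a (algebraMap K (AdjoinRoot q) c) = ε (y c) := by
    intro c
    exact AdjoinRoot.liftAlgHom_of (p := q) iy ζ hζi c
  have haR : a (AdjoinRoot.root q) = ζ := AdjoinRoot.liftAlgHom_root (p := q) iy ζ hζi
  have haM : ∀ p : K[X], a (AdjoinRoot.mk q p) = p.eval₂ (ε.comp (y : K →+* E)) ζ := by
    intro p
    exact AdjoinRoot.liftAlgHom_mk (p := q) iy ζ hζi p
  have hbK : ∀ c, b c = ε (y' c) := fun c => rfl
  -- `ζ'` lies in the field generated by `L` and `K`
  have he : ζ' ∈ Subfield.closure (Set.range a ∪ Set.range b) := by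
    have h1 : F ≤ (Subfield.closure (Set.range a ∪ Set.range b)).comap ε := by
      rw [hF, Subfield.closure_le]
      rintro z (⟨c, rfl⟩ | ⟨c, rfl⟩)
      · exact Subfield.subset_closure (Or.inl ⟨algebraMap K (AdjoinRoot q) c, haK c⟩)
      · exact Subfield.subset_closure (Or.inr ⟨c, hbK c⟩)
    have h2 : Subfield.closure (Set.range (ε.comp ι) ∪ {ζ}) ≤
        Subfield.closure (Set.range a ∪ Set.range b) := by
      rw [Subfield.closure_le]
      rintro z (⟨f, rfl⟩ | hz)
      · exact h1 f.2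
      · rw [Set.mem_singleton_iff.1 hz]
        exact Subfield.subset_closure (Or.inl ⟨AdjoinRoot.root q, haR⟩)
    exact h2 hgF
  -- `q` stays irreducible over `F`
  have hclK : ∀ e : F, (∃ P : K[X], P ≠ 0 ∧ P.eval₂ yF e = 0) → ∃ c, yF c = e := by
    rintro e ⟨P, hP, hP0⟩
    have h1 : P.eval₂ (y : K →+* E) (ι e) = 0 := by
      rw [← hιy, ← Polynomial.hom_eval₂, hP0, map_zero]
    have h3 : ι e ∈ Subfield.closure (Set.range y' ∪ Set.range y) := by
      rw [Set.union_comm]
      exact e.2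
    obtain ⟨c, hc⟩ := closed_of_linDisj hK hK0 y' y (LinDisj.symm y y' hd) (ι e) h3 ⟨P, hP, h1⟩
    exact ⟨c, Subtype.ext hc⟩
  have hirr : Irreducible (q.map yF) := irreducible_map_of_closed yF hclK q hm hq
  -- linear disjointness
  have hq1 : q ≠ 1 := by
    intro h
    rw [h, Polynomial.natDegree_one] at h2
    omega
  have hd' : LinDisj k (a : AdjoinRoot q →+* Ω) (b : K →+* Ω) := by
    intro n l c hc hsum
    choose p hp hpl using fun j => R9_rep q hm hq1 (l j)
    set W : F[X] := ∑ j, (p j).map yF * Polynomial.C (yF' (c j)) with hW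
    have hW0 : W.eval₂ (ε.comp ι) ζ = 0 := by
      rw [hW, Polynomial.eval₂_finsetSum, ← hsum]
      refine Finset.sum_congr rfl fun j _ => ?_
      rw [Polynomial.eval₂_mul, Polynomial.eval₂_C, Polynomial.eval₂_map, RingHom.comp_assoc, hιy]
      have h3 : (a : AdjoinRoot q →+* Ω) (l j) = (p j).eval₂ (ε.comp (y : K →+* E)) ζ := by
        rw [← hpl j]
        exact haM (p j)
      rw [h3]
      rfl
    have hWd : W.degree < (q.map yF).degree := by
      rw [hW]
      refine lt_of_le_of_lt (Polynomial.degree_sum_le _ _) ?_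
      rw [Polynomial.degree_map, Finset.sup_lt_iff]
      · intro j _
        refine lt_of_le_of_lt (Polynomial.degree_mul_le _ _) ?_
        rw [Polynomial.degree_map]
        refine lt_of_le_of_lt (add_le_add le_rfl Polynomial.degree_C_le) ?_
        rw [add_zero]
        exact hp j
      · rw [Polynomial.degree_eq_natDegree hq.ne_zero]
        exact WithBot.bot_lt_coe _
    have hW1 : W = 0 := R9_zero (ε.comp ι) (q.map yF) hirr (hm.map yF) ζ hζF W hW0 hWd
    have hcoef : ∀ s : ℕ, ∑ j, (y : K →+* E) ((p j).coeff s) * (y' : K →+* E) (c j) = 0 := by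
      intro s
      have h3 := congrArg (fun V : F[X] => ι (V.coeff s)) hW1
      simp only [Polynomial.coeff_zero, map_zero] at h3
      rw [hW, Polynomial.finset_sum_coeff, map_sum] at h3
      rw [← h3]
      refine Finset.sum_congr rfl fun j _ => ?_
      rw [Polynomial.coeff_mul_C, Polynomial.coeff_map, map_mul]
      rfl
    intro j
    have h4 : p j = 0 := by
      ext s
      rw [Polynomial.coeff_zero]
      exact hd n (fun j => (p j).coeff s) c hc (hcoef s) j
    rw [← hpl j, h4, map_zero]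
  obtain ⟨c, hc⟩ := closed_of_linDisj hK hL' a b hd' ζ' he ⟨q, hq.ne_zero, hζ'⟩
  have h5 : q.eval c = 0 := by
    have h6 : q.eval₂ (b : K →+* Ω) ((b : K →+* Ω) c) = 0 := by
      have h7 : (b : K →+* Ω) c = ζ' := hc
      rw [h7]
      exact hζ'
    rw [Polynomial.eval₂_at_apply] at h6
    exact (map_eq_zero _).1 h6
  have h8 := Polynomial.degree_eq_one_of_irreducible_of_root hq (x := c) h5
  have h9 : q.natDegree = 1 := Polynomial.natDegree_eq_of_degree_eq_some (by rw [h8]; rfl)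
  omega

end Pool.Agent.LibHP
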