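import Pool.Agent.LibCH33.SDefs
import Pool.Agent.LibCH33.R5
import Pool.Agent.LibCH33.R9
import Pool.Agent.LibCH33.R10
import Pool.Agent.LibHPF.P1
import Pool.Agent.LibHPF.P6

/-!
CH R11. Assembly.

Plan. As `main_moves` in LibHPF/P11.lean: `hilbertProp_of_points k f`, then `exists_point_of_moves k K M hM r σ hσ hcl A ι P hP hroot hconst` with `K := X.functionField`,
`ClosedIn` from `closedIn_of_chain`, and `hconst`: by contradiction (`push Not`), `k` is algebraically closed in `AdjoinRoot q`, `sameRoots_of_chain` gives
`SameRoots q y y'`, `no_cover` gives `False`. `DensePts k K` from `DensePts.of_hom`. No finiteness of divisors and no simple connectedness is needed.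
-/

set_option autoImplicit false
open AlgebraicGeometry CategoryTheory

namespace Pool.Agent.LibHP

theorem main_chain (k : Type) [Field k] [NumberField k] {X : Scheme}
    (f : X ⟶ Spec (CommRingCat.of k)) [IsIntegral X] [Smooth f] (M E : Type) [Field M]
    [Algebra k M] [Field E] [Algebra k E] (r : ℕ) (H : ChainJoined f M E r) : HilbertProp f := by
  let _ : Algebra k X.functionField := (toStalk f (genericPoint X)).toAlgebra
  obtain ⟨i, σ, y, y', hM, hσ, hch, hd, hcl⟩ := H
  have hK : DensePts k X.functionField := hM.of_hom i
  have hclosed : ClosedIn (σ : X.functionField →+* RF M r) :=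
    closedIn_of_chain i σ hσ hM y y' hd hcl hch
  have : CharZero X.functionField :=
    charZero_of_injective_algebraMap (algebraMap k X.functionField).injective
  apply hilbertProp_of_points k f
  intro A _ _ _ _ _ _ _ hA ι _ P hP hroot
  have : IsScalarTower k A X.functionField := IsScalarTower.of_algebraMap_eq fun c => (hA c).symm
  refine exists_point_of_moves k X.functionField M hM r (σ : X.functionField →+* RF M r)
    (fun c => σ.commutes c) hclosed A ι P hP hroot ?_
  intro j q hq hqm hq2 hqd hall
  by_contra hcon
  push Not at hcon
  refine no_cover hK y y' hd hcl q hqm hq2 ?_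
    (sameRoots_of_chain (k := k) (i : X.functionField →+* M) (σ : X.functionField →+* RF M r) hσ q
      hqm hall (y : X.functionField →+* E) (y' : X.functionField →+* E) hch)
  intro α hα
  exact hcon α hα

end Pool.Agent.LibHP
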