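import Pool.Agent.LibCH33.Defs
import Pool.Agent.LibHP2.A1

/-!
CH R2. An endomorphism of `Mbar(u)` over `M(u)` is given by an endomorphism of `Mbar` over `M`.

Plan. For `c ∈ Mbar`: `minpoly M c` splits over `Mbar`, so its image over `Ω := RF Mbar r` is a product of `X - C (const c')`,
and `g (const c)` is a root of it (`g` fixes the image of `M`: `rfmap_const`), hence `g (const c) = const c'` for some
`c'`. Choose `τ c := c'`; it is a ring homomorphism since `const = algebraMap Mbar Ω` is injective, and it fixes `M`. `g` and `rfmap τ r` agree
on constants (`rfmap_const`) and on the variables (`g` fixes `rfmap (algebraMap ..) r (X i) = X i`, `rfmap_algebraMap`,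
`MvPolynomial.map_X`), so on polynomials (`MvPolynomial.induction_on` or `MvPolynomial.ringHom_ext`) and on fractions
(`IsFractionRing.div_surjective` / `IsFractionRing.ringHom_ext`). See P3b in LibHPF for the same kind of argument.
-/

set_option autoImplicit false
open Polynomial

namespace Pool.Agent.LibHP

theorem exists_coeff_aut (M : Type) [Field M] (r : ℕ)
    (g : RF (AlgebraicClosure M) r →+* RF (AlgebraicClosure M) r)
    (hg : ∀ f : RF M r, g (rfmap (algebraMap M (AlgebraicClosure M)) r f) =
      rfmap (algebraMap M (AlgebraicClosure M)) r f) :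
    ∃ τ : AlgebraicClosure M →+* AlgebraicClosure M, g = rfmap τ r := by
  have hinj : Function.Injective
      (algebraMap (AlgebraicClosure M) (RF (AlgebraicClosure M) r)) :=
    (algebraMap (AlgebraicClosure M) (RF (AlgebraicClosure M) r)).injective
  have hfix : ∀ a : M, g (algebraMap (AlgebraicClosure M) (RF (AlgebraicClosure M) r)
      (algebraMap M (AlgebraicClosure M) a)) =
        algebraMap (AlgebraicClosure M) (RF (AlgebraicClosure M) r)
          (algebraMap M (AlgebraicClosure M) a) := by
    intro a
    rw [← rfmap_const]
    exact hg _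
  have hrange : ∀ c : AlgebraicClosure M, ∃ c' : AlgebraicClosure M,
      algebraMap (AlgebraicClosure M) (RF (AlgebraicClosure M) r) c' =
        g (algebraMap (AlgebraicClosure M) (RF (AlgebraicClosure M) r) c) := by
    intro c
    have hc : IsIntegral M c := Algebra.IsIntegral.isIntegral c
    set y := g (algebraMap (AlgebraicClosure M) (RF (AlgebraicClosure M) r) c) with hy
    have hcomp : (g.comp (algebraMap (AlgebraicClosure M) (RF (AlgebraicClosure M) r))).comp
        (algebraMap M (AlgebraicClosure M)) =
        (algebraMap (AlgebraicClosure M) (RF (AlgebraicClosure M) r)).comp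
          (algebraMap M (AlgebraicClosure M)) := RingHom.ext hfix
    have hint : IsIntegral (AlgebraicClosure M) y := by
      refine ⟨(minpoly M c).map (algebraMap M (AlgebraicClosure M)), (minpoly.monic hc).map _, ?_⟩
      rw [eval₂_map, ← hcomp]
      have h1 : y = (g.comp (algebraMap (AlgebraicClosure M) (RF (AlgebraicClosure M) r))) c := rfl
      rw [h1, ← Polynomial.hom_eval₂]
      have h2 : eval₂ (algebraMap M (AlgebraicClosure M)) c (minpoly M c) = 0 := minpoly.aeval M c
      rw [h2, map_zero]
    have hdeg : (minpoly (AlgebraicClosure M) y).degree = 1 :=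
      IsAlgClosed.degree_eq_one_of_irreducible _ (minpoly.irreducible hint)
    obtain ⟨c', hc'⟩ := minpoly.mem_range_of_degree_eq_one _ _ hdeg
    exact ⟨c', hc'⟩
  choose t ht using hrange
  let τ : AlgebraicClosure M →+* AlgebraicClosure M :=
    { toFun := t
      map_one' := hinj (by rw [ht, map_one, map_one])
      map_mul' := fun a b => hinj (by rw [ht, map_mul, map_mul, map_mul, ht, ht])
      map_zero' := hinj (by rw [ht, map_zero, map_zero])
      map_add' := fun a b => hinj (by rw [ht, map_add, map_add, map_add, ht, ht]) }
  have hτ : ∀ c, algebraMap (AlgebraicClosure M) (RF (AlgebraicClosure M) r) (τ c) =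
      g (algebraMap (AlgebraicClosure M) (RF (AlgebraicClosure M) r) c) := ht
  refine ⟨τ, ?_⟩
  have hpoly : ∀ p : MvPolynomial (Fin r) (AlgebraicClosure M),
      g (algebraMap (MvPolynomial (Fin r) (AlgebraicClosure M)) (RF (AlgebraicClosure M) r) p) =
        rfmap τ r (algebraMap (MvPolynomial (Fin r) (AlgebraicClosure M))
          (RF (AlgebraicClosure M) r) p) := by
    intro p
    induction p using MvPolynomial.induction_on with
    | C c => rw [← A1_const, rfmap_const, hτ]
    | add p q hp hq => rw [map_add, map_add, map_add, hp, hq]
    | mul_X p i hp =>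
      have h1 := hg (algebraMap (MvPolynomial (Fin r) M) (RF M r) (MvPolynomial.X i))
      rw [rfmap_algebraMap, MvPolynomial.map_X] at h1
      rw [map_mul, map_mul, map_mul, hp, h1, rfmap_algebraMap τ (MvPolynomial.X i),
        MvPolynomial.map_X]
  refine RingHom.ext fun f => ?_
  obtain ⟨p, q, hq, e⟩ :=
    IsFractionRing.div_surjective (A := MvPolynomial (Fin r) (AlgebraicClosure M)) f
  rw [← e, map_div₀, map_div₀, hpoly, hpoly]

end Pool.Agent.LibHP
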