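import Pool.Agent.LibCH33.R2
import Pool.Agent.LibHPF.P3b

/-!
CH R3. A root `z j` and its value `v j` generate the same field over `M(u)`.

`genBy_of_auts` (general Galois theory): `Ω/F` algebraic, normal, characteristic zero; if every automorphism of `Ω` over `F` fixing
`x` fixes `y` then `y` lies in `F(x)`. Plan: `letI := ρ.toAlgebra`, `Algebra.IsAlgebraic`, `Normal` (from `hn`: `normal_iff`), hence
`IsGalois F Ω`; `InfiniteGalois.fixedField_fixingSubgroup (IntermediateField.adjoin F {x})`; `y ∈ adjoin F {x}`; compare with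
`Subfield.closure` (`IntermediateField.adjoin` is `Subfield.closure (Set.range (algebraMap F Ω) ∪ S)` by definition).

`genBy_val`: `ρ := rfmap (algebraMap M Mbar) r`. Hypotheses of `genBy_of_auts` for `ρ`: every element of `Ω = RF Mbar r` is
algebraic over `RF M r` and its minimal polynomial splits: see P3b (`P3b_core`, `splits_of_root_rf`); algebraic because `Ω` is generated by the
constants, which are algebraic. Let `g` be an automorphism; `g = rfmap τ r` (`exists_coeff_aut`). `HasVal (g (z j)) (τ (v j))` (`HasVal.map`).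
(1) If `g` fixes `z j` then `τ (v j) = v j` (`HasVal.unique`), so `g (const (v j)) = const (v j)` (`rfmap_const`).
(2) If `g` fixes `const (v j)` then `τ (v j) = v j`, and `g (z j)` is a root of `q` over `sbar σ` (`g` fixes the image of `sbar σ`), so
`g (z j) = z j'` for some `j'` (`hall`), with value `v j'`; `v j' = τ (v j) = v j`, so `j' = j`.
-/

set_option autoImplicit false
open Polynomial

namespace Pool.Agent.LibHP

theorem genBy_of_auts {F Ω : Type} [Field F] [CharZero F] [Field Ω] (ρ : F →+* Ω)
    (hn : ∀ z : Ω, ∃ P : F[X], P.Monic ∧ P.eval₂ ρ z = 0 ∧ (P.map ρ).Splits) (x y : Ω)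
    (h : ∀ g : Ω ≃+* Ω, (∀ a, g (ρ a) = ρ a) → g x = x → g y = y) : GenBy ρ x y := by
  let _ : Algebra F Ω := ρ.toAlgebra
  have hint : ∀ z : Ω, IsIntegral F z := fun z => by
    obtain ⟨P, h1, h2, _⟩ := hn z
    exact ⟨P, h1, h2⟩
  have _i1 : Algebra.IsAlgebraic F Ω := ⟨fun z => (hint z).isAlgebraic⟩
  have _i2 : Normal F Ω := normal_iff.2 fun z => ⟨hint z, by
    obtain ⟨P, h1, h2, h3⟩ := hn z
    refine Polynomial.Splits.of_dvd h3 ?_ ?_
    · exact (Polynomial.map_ne_zero_iff ρ.injective).2 h1.ne_zero
    · exact Polynomial.map_dvd ρ (minpoly.dvd F z h2)⟩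
  have _i3 : IsGalois F Ω := IsGalois.mk
  have h1 : y ∈ IntermediateField.fixedField
      (IntermediateField.fixingSubgroup (IntermediateField.adjoin F {x})) := by
    rw [IntermediateField.mem_fixedField_iff]
    intro g hg
    refine h g.toRingEquiv (fun a => g.commutes a) ?_
    exact (IntermediateField.mem_fixingSubgroup_iff _ _).1 hg x
      (IntermediateField.subset_adjoin F {x} (Set.mem_singleton x))
  rw [InfiniteGalois.fixedField_fixingSubgroup] at h1
  exact h1

private theorem R3_normal (M : Type) [Field M] (r : ℕ) (z : RF (AlgebraicClosure M) r) :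
    ∃ P : (RF M r)[X], P.Monic ∧ P.eval₂ (rfmap (algebraMap M (AlgebraicClosure M)) r) z = 0 ∧
      (P.map (rfmap (algebraMap M (AlgebraicClosure M)) r)).Splits := by
  set ρ := rfmap (algebraMap M (AlgebraicClosure M)) r with hρ
  let _ : Algebra (RF M r) (RF (AlgebraicClosure M) r) := ρ.toAlgebra
  have key : ∀ z : RF (AlgebraicClosure M) r,
      z ∈ algebraicClosure (RF M r) (RF (AlgebraicClosure M) r) := by
    intro z
    have hK1 : ∀ a : RF M r, ρ a ∈ algebraicClosure (RF M r) (RF (AlgebraicClosure M) r) :=
      fun a => (algebraicClosure (RF M r) (RF (AlgebraicClosure M) r)).algebraMap_mem a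
    have hK2 : ∀ c : AlgebraicClosure M,
        algebraMap (AlgebraicClosure M) (RF (AlgebraicClosure M) r) c ∈
          algebraicClosure (RF M r) (RF (AlgebraicClosure M) r) := by
      intro c
      have hc : IsIntegral M c := Algebra.IsIntegral.isIntegral c
      have hcomp : ρ.comp (algebraMap M (RF M r)) =
          (algebraMap (AlgebraicClosure M) (RF (AlgebraicClosure M) r)).comp
            (algebraMap M (AlgebraicClosure M)) := by
        refine RingHom.ext fun a => ?_
        exact rfmap_const _ a
      have h0 : IsIntegral (RF M r)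
          (algebraMap (AlgebraicClosure M) (RF (AlgebraicClosure M) r) c) := by
        refine ⟨(minpoly M c).map (algebraMap M (RF M r)), (minpoly.monic hc).map _, ?_⟩
        show eval₂ ρ _ _ = 0
        rw [eval₂_map, hcomp, ← Polynomial.hom_eval₂]
        have h1 : eval₂ (algebraMap M (AlgebraicClosure M)) c (minpoly M c) = 0 :=
          minpoly.aeval M c
        rw [h1, map_zero]
      exact mem_algebraicClosure_iff.2 h0.isAlgebraic
    have hp : ∀ p : MvPolynomial (Fin r) (AlgebraicClosure M),
        algebraMap (MvPolynomial (Fin r) (AlgebraicClosure M)) (RF (AlgebraicClosure M) r) p ∈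
          algebraicClosure (RF M r) (RF (AlgebraicClosure M) r) := by
      intro p
      induction p using MvPolynomial.induction_on with
      | C c =>
        have h1 := hK2 c
        rw [← A1_const]
        exact h1
      | add p q hp hq =>
        rw [map_add]
        exact add_mem hp hq
      | mul_X p i hp =>
        rw [map_mul]
        refine mul_mem hp ?_
        have h1 := hK1 (algebraMap (MvPolynomial (Fin r) M) (RF M r) (MvPolynomial.X i))
        rw [hρ, rfmap_algebraMap, MvPolynomial.map_X] at h1
        exact h1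
    obtain ⟨a, b, -, rfl⟩ := IsFractionRing.div_surjective
      (A := MvPolynomial (Fin r) (AlgebraicClosure M)) z
    exact div_mem (hp a) (hp b)
  have hz : IsIntegral (RF M r) z := (mem_algebraicClosure_iff.1 (key z)).isIntegral
  have h1 : (minpoly (RF M r) z).eval₂ ρ z = 0 := minpoly.aeval (RF M r) z
  exact ⟨minpoly (RF M r) z, minpoly.monic hz, h1,
    splits_of_root_rf M r _ (minpoly.monic hz) (minpoly.irreducible hz) z h1⟩

private theorem R3_charZero (M : Type) [Field M] [CharZero M] (r : ℕ) : CharZero (RF M r) :=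
  charZero_of_injective_algebraMap (algebraMap M (RF M r)).injective

theorem genBy_val {K M : Type} [Field K] [Field M] [CharZero M] {r : ℕ} (σ : K →+* RF M r)
    (q : K[X]) (z : Fin q.natDegree → RF (AlgebraicClosure M) r)
    (hall : ∀ x, q.eval₂ (sbar σ) x = 0 → ∃ j, x = z j)
    (hroot : ∀ j, q.eval₂ (sbar σ) (z j) = 0)
    (v : Fin q.natDegree → AlgebraicClosure M) (hv : Function.Injective v)
    (hval : ∀ j, HasVal (z j) (v j)) (j : Fin q.natDegree) :
    GenBy (rfmap (algebraMap M (AlgebraicClosure M)) r) (z j)
        (algebraMap (AlgebraicClosure M) (RF (AlgebraicClosure M) r) (v j)) ∧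
      GenBy (rfmap (algebraMap M (AlgebraicClosure M)) r)
        (algebraMap (AlgebraicClosure M) (RF (AlgebraicClosure M) r) (v j)) (z j) := by
  have _i := R3_charZero M r
  constructor
  · refine genBy_of_auts _ (R3_normal M r) _ _ fun g hg hx => ?_
    obtain ⟨τ, hτ⟩ := exists_coeff_aut M r (g : RF (AlgebraicClosure M) r →+* _) hg
    have hgτ : ∀ f, g f = rfmap τ r f := fun f => RingHom.congr_fun hτ f
    have h1 : HasVal (g (z j)) (τ (v j)) := by
      rw [hgτ]
      exact (hval j).map τ
    rw [hx] at h1
    have h2 : τ (v j) = v j := h1.unique (hval j)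
    rw [hgτ, rfmap_const, h2]
  · refine genBy_of_auts _ (R3_normal M r) _ _ fun g hg hx => ?_
    obtain ⟨τ, hτ⟩ := exists_coeff_aut M r (g : RF (AlgebraicClosure M) r →+* _) hg
    have hgτ : ∀ f, g f = rfmap τ r f := fun f => RingHom.congr_fun hτ f
    rw [hgτ, rfmap_const] at hx
    have h2 : τ (v j) = v j :=
      (algebraMap (AlgebraicClosure M) (RF (AlgebraicClosure M) r)).injective hx
    have h1 : HasVal (g (z j)) (v j) := by
      rw [hgτ]
      have h3 := (hval j).map τ
      rwa [h2] at h3
    have h4 : q.eval₂ (sbar σ) (g (z j)) = 0 := by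
      have h5 : (g : RF (AlgebraicClosure M) r →+* _).comp (sbar σ) = sbar σ := by
        refine RingHom.ext fun a => ?_
        exact hg (σ a)
      have h6 := Polynomial.hom_eval₂ q (sbar σ)
        (g : RF (AlgebraicClosure M) r →+* RF (AlgebraicClosure M) r) (z j)
      rw [hroot j, map_zero, h5] at h6
      exact h6.symm
    obtain ⟨j', hj'⟩ := hall _ h4
    rw [hj'] at h1
    have h5 : v j' = v j := (hval j').unique h1
    rw [hj', hv h5]

end Pool.Agent.LibHP
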