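import Pool.Agent.LibCH33.R1
import Pool.Agent.LibCH33.R3

/-!
CH R4. One move: the roots of `q` over `y` and over `y'` generate the same fields over `E`.
-/

set_option autoImplicit false
open Polynomial

namespace Pool.Agent.LibHP

/-- transport of `GenBy` -/
theorem GenBy.map {F Ω E Ω' : Type} [Field F] [Field Ω] [Field E] [Field Ω'] {ρ : F →+* Ω}
    {ε : E →+* Ω'} (θ : Ω →+* Ω') (hθ : ∀ a, ∃ b, θ (ρ a) = ε b) {x y : Ω} (h : GenBy ρ x y) :
    GenBy ε (θ x) (θ y) := by
  have h1 : Subfield.closure (Set.range ρ ∪ {x}) ≤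
      (Subfield.closure (Set.range ε ∪ {θ x})).comap θ := by
    rw [Subfield.closure_le]
    rintro z (⟨a, rfl⟩ | hz)
    · obtain ⟨b, hb⟩ := hθ a
      change θ (ρ a) ∈ Subfield.closure _
      rw [hb]
      exact Subfield.subset_closure (Or.inl ⟨b, rfl⟩)
    · rw [Set.mem_singleton_iff.1 hz]
      exact Subfield.subset_closure (Or.inr rfl)
  exact h1 h

theorem R4_all {K Ω : Type} [Field K] [Field Ω] (s : K →+* Ω) (q : K[X]) (hm : q.Monic)
    (z : Fin q.natDegree → Ω) (hz : Function.Injective z) (hroot : ∀ j, q.eval₂ s (z j) = 0)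
    (x : Ω) (hx : q.eval₂ s x = 0) : ∃ j, x = z j := by
  classical
  by_contra hcon
  push Not at hcon
  have hq0 : q.map s ≠ 0 := (hm.map s).ne_zero
  have hmem : ∀ y, q.eval₂ s y = 0 → y ∈ (q.map s).roots.toFinset := by
    intro y hy
    rw [Multiset.mem_toFinset, Polynomial.mem_roots hq0, Polynomial.IsRoot, Polynomial.eval_map]
    exact hy
  have hsub : insert x (Finset.univ.image z) ⊆ (q.map s).roots.toFinset := by
    intro y hy
    rcases Finset.mem_insert.1 hy with rfl | hy
    · exact hmem _ hx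
    · obtain ⟨j, -, rfl⟩ := Finset.mem_image.1 hy
      exact hmem _ (hroot j)
  have hnot : x ∉ Finset.univ.image z := by
    intro h
    obtain ⟨j, -, hj⟩ := Finset.mem_image.1 h
    exact hcon j hj.symm
  have h1 := Finset.card_le_card hsub
  rw [Finset.card_insert_of_notMem hnot, Finset.card_image_of_injective _ hz, Finset.card_univ,
    Fintype.card_fin] at h1
  have h2 := Multiset.toFinset_card_le (q.map s).roots
  have h3 := Polynomial.card_roots' (q.map s)
  rw [Polynomial.natDegree_map] at h3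
  omega

theorem R4_alg_core {k E : Type} [Field k] [Field E] (ρ : k →+* E) (S : Set E)
    (hS : ∀ x ∈ S, ∃ P : k[X], P ≠ 0 ∧ P.eval₂ ρ x = 0)
    (hgen : ∀ K : Subfield E, (∀ a, ρ a ∈ K) → S ⊆ K → ∀ z, z ∈ K) (z : E) :
    ∃ P : k[X], P ≠ 0 ∧ P.eval₂ ρ z = 0 := by
  let _ : Algebra k E := ρ.toAlgebra
  have h1 : z ∈ algebraicClosure k E := by
    refine hgen (algebraicClosure k E).toSubfield (fun a => ?_) (fun x hx => ?_) z
    · exact (algebraicClosure k E).algebraMap_mem a
    · obtain ⟨P, hP, hP0⟩ := hS x hx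
      have h2 : IsAlgebraic k x := ⟨P, hP, hP0⟩
      exact mem_algebraicClosure_iff.2 h2
  obtain ⟨P, hP, hP0⟩ := mem_algebraicClosure_iff.1 h1
  exact ⟨P, hP, hP0⟩

theorem R4_lift_core {k E Ω : Type} [Field k] [Field E] [Field Ω] [IsAlgClosed Ω] (ρ : k →+* E)
    (η : k →+* Ω) (h : ∀ z : E, ∃ P : k[X], P ≠ 0 ∧ P.eval₂ ρ z = 0) :
    ∃ θ' : E →+* Ω, ∀ f, θ' (ρ f) = η f := by
  let _ : Algebra k E := ρ.toAlgebra
  let _ : Algebra k Ω := η.toAlgebra
  have h1 : Algebra.IsAlgebraic k E := ⟨fun z => by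
    obtain ⟨P, hP, hP0⟩ := h z
    exact ⟨P, hP, hP0⟩⟩
  let g : E →ₐ[k] Ω := IsAlgClosed.lift
  exact ⟨g.toRingHom, fun f => g.commutes f⟩

theorem R4_alg (M : Type) [Field M] (r : ℕ) (z : RF (AlgebraicClosure M) r) :
    ∃ P : (RF M r)[X], P ≠ 0 ∧ P.eval₂ (rfmap (algebraMap M (AlgebraicClosure M)) r) z = 0 := by
  refine R4_alg_core (rfmap (algebraMap M (AlgebraicClosure M)) r)
    (Set.range fun c : AlgebraicClosure M =>
      algebraMap (AlgebraicClosure M) (RF (AlgebraicClosure M) r) c) ?_ ?_ z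
  · rintro _ ⟨c, rfl⟩
    have hc : IsIntegral M c := Algebra.IsIntegral.isIntegral c
    have hcomp : (rfmap (algebraMap M (AlgebraicClosure M)) r).comp (algebraMap M (RF M r)) =
        (algebraMap (AlgebraicClosure M) (RF (AlgebraicClosure M) r)).comp
          (algebraMap M (AlgebraicClosure M)) := by
      refine RingHom.ext fun a => ?_
      exact rfmap_const _ a
    refine ⟨(minpoly M c).map (algebraMap M (RF M r)), ((minpoly.monic hc).map _).ne_zero, ?_⟩
    rw [eval₂_map, hcomp, ← Polynomial.hom_eval₂]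
    have h1 : eval₂ (algebraMap M (AlgebraicClosure M)) c (minpoly M c) = 0 := minpoly.aeval M c
    rw [h1, map_zero]
  · intro K hK1 hK2 z
    have hp : ∀ p : MvPolynomial (Fin r) (AlgebraicClosure M),
        algebraMap (MvPolynomial (Fin r) (AlgebraicClosure M)) (RF (AlgebraicClosure M) r) p ∈
          K := by
      intro p
      induction p using MvPolynomial.induction_on with
      | C c =>
        have h1 := hK2 ⟨c, rfl⟩
        rw [← A1_const]
        exact h1
      | add p q hp hq =>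
        rw [map_add]
        exact K.add_mem hp hq
      | mul_X p i hp =>
        rw [map_mul]
        refine K.mul_mem hp ?_
        have h1 := hK1 (algebraMap (MvPolynomial (Fin r) M) (RF M r) (MvPolynomial.X i))
        rw [rfmap_algebraMap, MvPolynomial.map_X] at h1
        exact h1
    obtain ⟨a, b, -, rfl⟩ := IsFractionRing.div_surjective
      (A := MvPolynomial (Fin r) (AlgebraicClosure M)) z
    exact K.div_mem (hp a) (hp b)

theorem R4_roots {K : Type} [Field K] {Ω : Type} [Field Ω] (s : K →+* Ω) (q : K[X])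
    [Fact (Irreducible q)]
    (ψ : Fin (Module.finrank K (AdjoinRoot q)) → (AdjoinRoot q →+* Ω))
    (hψ : Function.Injective ψ) (hs : ∀ i a, ψ i (algebraMap K (AdjoinRoot q) a) = s a) :
    ∃ z : Fin q.natDegree → Ω, Function.Injective z ∧ ∀ j, q.eval₂ s (z j) = 0 := by
  have hq : Irreducible q := Fact.out
  have hfr : Module.finrank K (AdjoinRoot q) = q.natDegree := by
    rw [(AdjoinRoot.powerBasis hq.ne_zero).finrank, AdjoinRoot.powerBasis_dim]
  refine ⟨fun j => ψ (Fin.cast hfr.symm j) (AdjoinRoot.root q), ?_, ?_⟩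
  · intro j j' h
    have h1 : ψ (Fin.cast hfr.symm j) = ψ (Fin.cast hfr.symm j') := by
      refine RingHom.ext fun x => ?_
      obtain ⟨p, rfl⟩ := AdjoinRoot.mk_surjective x
      have h2 : ∀ i, ψ i (AdjoinRoot.mk q p) = p.eval₂ s (ψ i (AdjoinRoot.root q)) := by
        intro i
        rw [← AdjoinRoot.aeval_eq, Polynomial.aeval_def, Polynomial.hom_eval₂]
        congr 1
        exact RingHom.ext fun a => hs i a
      rw [h2, h2]
      exact congrArg (fun t => p.eval₂ s t) h
    have h3 := hψ h1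
    exact Fin.cast_injective _ h3
  · intro j
    have h1 : q.eval₂ (AdjoinRoot.of q) (AdjoinRoot.root q) = 0 := AdjoinRoot.eval₂_root q
    have h2 := congrArg (ψ (Fin.cast hfr.symm j)) h1
    rw [map_zero, Polynomial.hom_eval₂] at h2
    rw [← h2]
    congr 1
    exact RingHom.ext fun a => (hs (Fin.cast hfr.symm j) a).symm

theorem sameRoots_of_move {K M : Type} [Field K] [CharZero K] [Field M] {r : ℕ} (i : K →+* M)
    (σ : K →+* RF M r) (hσ : IsMove i σ) (q : K[X]) (hm : q.Monic) [Fact (Irreducible q)]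
    (hL : AllEmb σ (AdjoinRoot q)) {E : Type} [Field E] (θ : RF M r →+* E) :
    SameRoots q (θ.comp σ) (θ.comp ((algebraMap M (RF M r)).comp i)) ∧
      SameRoots q (θ.comp ((algebraMap M (RF M r)).comp i)) (θ.comp σ) := by
  have hq : Irreducible q := Fact.out
  have hcM : CharZero M := charZero_of_injective_ringHom i.injective
  obtain ⟨ψ, hψ, hψs⟩ := hL
  obtain ⟨z, hz, hroot⟩ := R4_roots (sbar σ) q ψ hψ hψs
  have hall := R4_all (sbar σ) q hm z hz hroot
  obtain ⟨v, hv, hval⟩ := exists_vals i σ hσ q hm hq z hz hroot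
  have hgen := genBy_val σ q z hall hroot v hv fun j => (hval j).1
  obtain ⟨θ', hθ'⟩ := R4_lift_core (rfmap (algebraMap M (AlgebraicClosure M)) r)
    ((algebraMap E (AlgebraicClosure E)).comp θ) (R4_alg M r)
  have hmap : ∀ a, ∃ b, θ' (rfmap (algebraMap M (AlgebraicClosure M)) r a) =
      algebraMap E (AlgebraicClosure E) b := fun a => ⟨θ a, hθ' a⟩
  have hs1 : (algebraMap E (AlgebraicClosure E)).comp (θ.comp σ) = θ'.comp (sbar σ) := by
    refine RingHom.ext fun a => ?_
    exact (hθ' (σ a)).symm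
  have hs2 : (algebraMap E (AlgebraicClosure E)).comp
      (θ.comp ((algebraMap M (RF M r)).comp i)) =
      (θ'.comp (algebraMap (AlgebraicClosure M) (RF (AlgebraicClosure M) r))).comp
        ((algebraMap M (AlgebraicClosure M)).comp i) := by
    refine RingHom.ext fun a => ?_
    have h1 := hθ' (algebraMap M (RF M r) (i a))
    rw [rfmap_const] at h1
    exact h1.symm
  have hr1 : ∀ j, q.eval₂ ((algebraMap E (AlgebraicClosure E)).comp (θ.comp σ)) (θ' (z j)) = 0 := by
    intro j
    rw [hs1, ← Polynomial.hom_eval₂, hroot j, map_zero]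
  have hr2 : ∀ j, q.eval₂ ((algebraMap E (AlgebraicClosure E)).comp
      (θ.comp ((algebraMap M (RF M r)).comp i)))
      ((θ'.comp (algebraMap (AlgebraicClosure M) (RF (AlgebraicClosure M) r))) (v j)) = 0 := by
    intro j
    rw [hs2, ← Polynomial.hom_eval₂, (hval j).2, map_zero]
  refine ⟨fun x hx => ?_, fun x hx => ?_⟩
  · obtain ⟨j, rfl⟩ := R4_all _ q hm (fun j => θ' (z j)) (θ'.injective.comp hz) hr1 x hx
    exact ⟨_, hr2 j, (hgen j).1.map θ' hmap, (hgen j).2.map θ' hmap⟩
  · obtain ⟨j, rfl⟩ := R4_all _ q hm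
      (fun j => (θ'.comp (algebraMap (AlgebraicClosure M) (RF (AlgebraicClosure M) r))) (v j))
      ((θ'.comp (algebraMap (AlgebraicClosure M) (RF (AlgebraicClosure M) r))).injective.comp hv)
      hr2 x hx
    exact ⟨_, hr1 j, (hgen j).2.map θ' hmap, (hgen j).1.map θ' hmap⟩

end Pool.Agent.LibHP
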