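import Pool.Agent.LibCH33.Defs
import Pool.Agent.LibHPF.P7a

/-!
CH R6. If `F` is algebraically closed in `E` and `x'` lies in `E(x)`, `x`, `x'` algebraic over `F`, then `x'` lies in `F(x)`.

Plan. `letI`s: `Algebra F E := ι.toAlgebra`, `Algebra E Ω := ε.toAlgebra`, `Algebra F Ω := (ε.comp ι).toAlgebra`, scalar tower. For `β ∈ Ω` integral over
`F`: `(minpoly F β).map ι = minpoly E β` (`irreducible_map_of_closed` (P3a), see the proof of `P7a_adjoin`), so `[E(β) : E] = [F(β) : F]`
(`IntermediateField.adjoin.finrank`). Let `F(x, x') = F(β)` (`Field.exists_primitive_element`, characteristic zero; or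
`IntermediateField.exists_primitive_element...`); then `E(β) = E(x, x') = E(x)` since `x' ∈ E(x)`, so `[F(β) : F] = [E(x) : E] = [F(x) : F]`, and `F(x) ≤ F(β)` with
equal finite dimension over `F` gives `F(x) = F(β) ∋ x'` (`IntermediateField.eq_of_le_of_finrank_eq`). `GenBy` is membership in
`IntermediateField.adjoin _ {x}` (definition of `adjoin` by `Subfield.closure`).
-/

set_option autoImplicit false
open Polynomial

namespace Pool.Agent.LibHP

theorem R6_deg {F E Ω : Type} [Field F] [Field E] [Field Ω] [Algebra F E] [Algebra E Ω]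
    [Algebra F Ω] [IsScalarTower F E Ω]
    (hcl : ∀ e : E, (∃ P : F[X], P ≠ 0 ∧ P.eval₂ (algebraMap F E) e = 0) →
      ∃ a, algebraMap F E a = e) (β : Ω) (hβ : IsIntegral F β) :
    Module.finrank E (IntermediateField.adjoin E {β}) =
      Module.finrank F (IntermediateField.adjoin F {β}) := by
  have hirr : Irreducible ((minpoly F β).map (algebraMap F E)) :=
    irreducible_map_of_closed (algebraMap F E) hcl (minpoly F β) (minpoly.monic hβ)
      (minpoly.irreducible hβ)
  have hmin : (minpoly F β).map (algebraMap F E) = minpoly E β := by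
    refine minpoly.eq_of_irreducible_of_monic hirr ?_ ((minpoly.monic hβ).map _)
    rw [Polynomial.aeval_map_algebraMap, minpoly.aeval]
  have hβE : IsIntegral E β := hβ.tower_top
  rw [IntermediateField.adjoin.finrank hβ, IntermediateField.adjoin.finrank hβE, ← hmin,
    Polynomial.natDegree_map]

theorem R6_main {F E Ω : Type} [Field F] [CharZero F] [Field E] [Field Ω] [Algebra F E]
    [Algebra E Ω] [Algebra F Ω] [IsScalarTower F E Ω]
    (hcl : ∀ e : E, (∃ P : F[X], P ≠ 0 ∧ P.eval₂ (algebraMap F E) e = 0) →
      ∃ a, algebraMap F E a = e) (x x' : Ω) (hx : IsIntegral F x) (hx' : IsIntegral F x')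
    (h : x' ∈ IntermediateField.adjoin E {x}) : x' ∈ IntermediateField.adjoin F {x} := by
  set K0 := IntermediateField.adjoin F ({x, x'} : Set Ω) with hK0
  have hfd : FiniteDimensional F K0 := by
    refine IntermediateField.finiteDimensional_adjoin ?_
    intro y hy
    rcases hy with hy | hy
    · rw [hy]; exact hx
    · rw [Set.mem_singleton_iff] at hy
      rw [hy]; exact hx'
  obtain ⟨β, hβ⟩ := Field.exists_primitive_element F K0
  have hE : K0 = IntermediateField.adjoin F {(β : Ω)} := by
    have h1 := congrArg (IntermediateField.map K0.val) hβ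
    rw [IntermediateField.adjoin_map, Set.image_singleton] at h1
    rw [← AlgHom.fieldRange_eq_map, IntermediateField.fieldRange_val] at h1
    exact h1.symm
  have hβi : IsIntegral F (β : Ω) := (Algebra.IsIntegral.isIntegral (R := F) β).map K0.val
  have hxE : IsIntegral E x := hx.tower_top
  have h1 : K0 ≤ (IntermediateField.adjoin E {x}).restrictScalars F := by
    rw [hK0, IntermediateField.adjoin_le_iff]
    intro y hy
    rcases hy with hy | hy
    · rw [hy]
      exact IntermediateField.mem_adjoin_simple_self E x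
    · rw [Set.mem_singleton_iff] at hy
      rw [hy]
      exact h
  have h2 : (β : Ω) ∈ IntermediateField.adjoin E {x} := h1 β.2
  have h3 : IntermediateField.adjoin E {(β : Ω)} ≤ IntermediateField.adjoin E {x} := by
    rw [IntermediateField.adjoin_simple_le_iff]
    exact h2
  have hfx : FiniteDimensional E (IntermediateField.adjoin E {x}) :=
    IntermediateField.adjoin.finiteDimensional hxE
  have h4 : Module.finrank E (IntermediateField.adjoin E {(β : Ω)}) ≤
      Module.finrank E (IntermediateField.adjoin E {x}) :=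
    LinearMap.finrank_le_finrank_of_injective (f := (IntermediateField.inclusion h3).toLinearMap)
      fun a b hab => (IntermediateField.inclusion h3).toRingHom.injective hab
  rw [R6_deg hcl _ hβi, R6_deg hcl x hx, ← hE] at h4
  have h5 : IntermediateField.adjoin F {x} ≤ K0 := by
    rw [IntermediateField.adjoin_simple_le_iff]
    exact IntermediateField.subset_adjoin F _ (Set.mem_insert _ _)
  have h6 := IntermediateField.eq_of_le_of_finrank_le h5 h4
  rw [h6]
  exact IntermediateField.subset_adjoin F _ (Set.mem_insert_of_mem _ rfl)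

theorem genBy_of_closed {F E Ω : Type} [Field F] [CharZero F] [Field E] [Field Ω] (ι : F →+* E)
    (ε : E →+* Ω) (hcl : ∀ e : E, (∃ P : F[X], P ≠ 0 ∧ P.eval₂ ι e = 0) → ∃ a, ι a = e)
    (x x' : Ω) (hx : ∃ P : F[X], P ≠ 0 ∧ P.eval₂ (ε.comp ι) x = 0)
    (hx' : ∃ P : F[X], P ≠ 0 ∧ P.eval₂ (ε.comp ι) x' = 0) (h : GenBy ε x x') :
    GenBy (ε.comp ι) x x' := by
  letI : Algebra F E := ι.toAlgebra
  letI : Algebra E Ω := ε.toAlgebra
  letI : Algebra F Ω := (ε.comp ι).toAlgebra
  haveI : IsScalarTower F E Ω := IsScalarTower.of_algebraMap_eq' rfl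
  have h1 : ∀ y : Ω, (∃ P : F[X], P ≠ 0 ∧ P.eval₂ (ε.comp ι) y = 0) → IsIntegral F y := by
    rintro y ⟨P, hP, hP2⟩
    exact IsAlgebraic.isIntegral ⟨P, hP, hP2⟩
  exact R6_main hcl x x' (h1 x hx) (h1 x' hx') h

end Pool.Agent.LibHP
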