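import Pool.Agent.LibCH33.Defs

/-!
CH R7. Linear disjointness: symmetry, and elements of the field generated by `L` and `K`.

Plan. `letI`s: `Algebra k G := (a.comp (algebraMap k L)).toAlgebra`, `a`, `b` as `k`-algebra homomorphisms, `μ : L ⊗[k] K →ₐ[k] G`,
`Algebra.TensorProduct.lift`/`productMap`. `LinDisj k a b` is equivalent to injectivity of `μ`: every element of `L ⊗ K` is `∑ l_j ⊗ c_j` with `c_j`
linearly independent (e.g. choose a basis of `K` over `k`: `Module.Free.chooseBasis`, `Algebra.TensorProduct.basis` / `TensorProduct.equivFinsuppOfBasisRight`,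
or `TensorProduct.exists_finset` + a basis of the finite dimensional span). Symmetric in `L`, `K` by `TensorProduct.comm` and
`Submodule.LinearDisjoint.symm`-type lemmas. (Mathlib: `Submodule.linearDisjoint_iff`, `Subalgebra.LinearDisjoint`, `TensorProduct.vanishesTrivially`.)

`exists_frac_of_closure`: the set of quotients `μ(t)/μ(t')`, `μ(t') ≠ 0`, is a subfield containing both ranges.
-/

set_option autoImplicit false
open Polynomial TensorProduct

namespace Pool.Agent.LibHP

/-- the map `L ⊗ K → G` is injective -/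
theorem LinDisj.injective {k L K G : Type} [Field k] [Field L] [Field K] [Field G] [Algebra k L]
    [Algebra k K] [Algebra k G] (a : L →ₐ[k] G) (b : K →ₐ[k] G)
    (h : LinDisj k (a : L →+* G) (b : K →+* G)) :
    Function.Injective (Algebra.TensorProduct.productMap a b) := by
  rw [injective_iff_map_eq_zero]
  intro t ht
  obtain ⟨⟨ι, B⟩⟩ := Module.Free.exists_basis (R := k) (M := K)
  obtain ⟨v, rfl⟩ := TensorProduct.eq_repr_basis_right B t
  set e : Fin v.support.card ≃ v.support := v.support.equivFin.symm with he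
  have hlin : LinearIndependent k fun j : Fin v.support.card => B (e j) :=
    B.linearIndependent.comp (fun j => ((e j : v.support) : ι))
      (Subtype.val_injective.comp e.injective)
  have hsum : ∑ j, a (v (e j)) * b (B (e j)) = 0 := by
    rw [Finsupp.sum, map_sum] at ht
    simp only [Algebra.TensorProduct.productMap_apply_tmul] at ht
    rw [← Finset.sum_coe_sort] at ht
    rw [← ht]
    exact Equiv.sum_comp e (fun i : v.support => a (v i) * b (B i))
  have h0 := h _ (fun j => v (e j)) (fun j => B (e j)) hlin hsum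
  rw [Finsupp.sum]
  refine Finset.sum_eq_zero fun i hi => ?_
  have h1 := h0 (e.symm ⟨i, hi⟩)
  simp only [Equiv.apply_symm_apply] at h1
  rw [h1, TensorProduct.zero_tmul]

theorem LinDisj.of_injective {k L K G : Type} [Field k] [Field L] [Field K] [Field G]
    [Algebra k L] [Algebra k K] [Algebra k G] (a : L →ₐ[k] G) (b : K →ₐ[k] G)
    (h : Function.Injective (Algebra.TensorProduct.productMap a b)) :
    LinDisj k (a : L →+* G) (b : K →+* G) := by
  intro n l c hc hs j
  have h1 : ∑ j, l j ⊗ₜ[k] c j = 0 := by
    apply h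
    rw [map_zero, map_sum]
    simp only [Algebra.TensorProduct.productMap_apply_tmul]
    exact hs
  have hc' : LinearIndepOn k id (Set.range c) := hc.linearIndepOn_id
  set B := Module.Basis.extend hc' with hB
  have hmem : ∀ j, c j ∈ hc'.extend (Set.subset_univ _) := fun j =>
    hc'.subset_extend _ ⟨j, rfl⟩
  have hBc : ∀ j, B ⟨c j, hmem j⟩ = c j := fun j => Module.Basis.extend_apply_self hc' _
  set v : hc'.extend (Set.subset_univ (Set.range c)) →₀ L :=
    ∑ i, Finsupp.single ⟨c i, hmem i⟩ (l i) with hv
  have h2 : v.sum (fun i m => m ⊗ₜ[k] B i) = 0 := by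
    rw [hv, ← h1]
    have h5 := Finsupp.sum_finsetSum_index (s := Finset.univ)
      (g := fun i : Fin n => Finsupp.single (⟨c i, hmem i⟩ :
        hc'.extend (Set.subset_univ (Set.range c))) (l i))
      (h := fun i m => m ⊗ₜ[k] B i) (fun i => TensorProduct.zero_tmul _ _)
      (fun i m m' => TensorProduct.add_tmul _ _ _)
    rw [← h5]
    refine Finset.sum_congr rfl fun i _ => ?_
    have h6 := Finsupp.sum_single_index (a := (⟨c i, hmem i⟩ :
        hc'.extend (Set.subset_univ (Set.range c)))) (b := l i)
      (h := fun i m => m ⊗ₜ[k] B i) (TensorProduct.zero_tmul _ _)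
    rw [h6, hBc]
  have h3 := TensorProduct.sum_tmul_basis_right_eq_zero B v h2
  have h4 : v ⟨c j, hmem j⟩ = l j := by
    rw [hv, Finsupp.finsetSum_apply, Finset.sum_eq_single j]
    · rw [Finsupp.single_eq_same]
    · intro i _ hij
      rw [Finsupp.single_eq_of_ne]
      intro hne
      exact hij (hc.injective (congrArg Subtype.val hne)).symm
    · intro hj
      exact absurd (Finset.mem_univ j) hj
  rw [← h4, h3]
  rfl

theorem LinDisj.symm {k L K G : Type} [Field k] [Field L] [Field K] [Field G] [Algebra k L]
    [Algebra k K] [Algebra k G] (a : L →ₐ[k] G) (b : K →ₐ[k] G)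
    (h : LinDisj k (a : L →+* G) (b : K →+* G)) : LinDisj k (b : K →+* G) (a : L →+* G) := by
  apply LinDisj.of_injective
  have h1 := LinDisj.injective a b h
  have h2 : ∀ t : K ⊗[k] L, Algebra.TensorProduct.productMap b a t =
      Algebra.TensorProduct.productMap a b (Algebra.TensorProduct.comm k K L t) := by
    intro t
    induction t with
    | zero => rw [map_zero, map_zero, map_zero]
    | tmul x y =>
      rw [Algebra.TensorProduct.comm_tmul, Algebra.TensorProduct.productMap_apply_tmul,
        Algebra.TensorProduct.productMap_apply_tmul, mul_comm]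
    | add x y hx hy => rw [map_add, map_add, map_add, hx, hy]
  intro t t' htt
  rw [h2, h2] at htt
  exact (Algebra.TensorProduct.comm k K L).injective (h1 htt)

theorem exists_frac_of_closure {k L K G : Type} [Field k] [Field L] [Field K] [Field G]
    [Algebra k L] [Algebra k K] [Algebra k G] (a : L →ₐ[k] G) (b : K →ₐ[k] G) (e : G)
    (he : e ∈ Subfield.closure (Set.range a ∪ Set.range b)) :
    ∃ t t' : L ⊗[k] K, Algebra.TensorProduct.productMap a b t' ≠ 0 ∧
      e * Algebra.TensorProduct.productMap a b t' = Algebra.TensorProduct.productMap a b t := by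
  set μ := Algebra.TensorProduct.productMap a b with hμ
  induction he using Subfield.closure_induction with
  | mem x hx =>
    rcases hx with ⟨y, rfl⟩ | ⟨y, rfl⟩
    · refine ⟨y ⊗ₜ 1, 1, ?_, ?_⟩
      · rw [map_one]
        exact one_ne_zero
      · rw [map_one, mul_one, hμ, Algebra.TensorProduct.productMap_apply_tmul, map_one, mul_one]
    · refine ⟨1 ⊗ₜ y, 1, ?_, ?_⟩
      · rw [map_one]
        exact one_ne_zero
      · rw [map_one, mul_one, hμ, Algebra.TensorProduct.productMap_apply_tmul, map_one, one_mul]
  | one => exact ⟨1, 1, by rw [map_one]; exact one_ne_zero, by rw [one_mul]⟩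
  | add x y _ _ hx hy =>
    obtain ⟨t, t', h1, h2⟩ := hx
    obtain ⟨s, s', h3, h4⟩ := hy
    refine ⟨t * s' + s * t', t' * s', ?_, ?_⟩
    · rw [map_mul]
      exact mul_ne_zero h1 h3
    · rw [map_mul, map_add, map_mul, map_mul, ← h2, ← h4]
      ring
  | neg x _ hx =>
    obtain ⟨t, t', h1, h2⟩ := hx
    refine ⟨-t, t', h1, ?_⟩
    rw [map_neg, ← h2]
    ring
  | inv x _ hx =>
    obtain ⟨t, t', h1, h2⟩ := hx
    by_cases h0 : x = 0
    · refine ⟨0, 1, by rw [map_one]; exact one_ne_zero, ?_⟩
      rw [h0, inv_zero, zero_mul, map_zero]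
    · refine ⟨t', t, ?_, ?_⟩
      · rw [← h2]
        exact mul_ne_zero h0 h1
      · rw [← h2, ← mul_assoc, inv_mul_cancel₀ h0, one_mul]
  | mul x y _ _ hx hy =>
    obtain ⟨t, t', h1, h2⟩ := hx
    obtain ⟨s, s', h3, h4⟩ := hy
    refine ⟨t * s, t' * s', ?_, ?_⟩
    · rw [map_mul]
      exact mul_ne_zero h1 h3
    · rw [map_mul, map_mul, ← h2, ← h4]
      ring

end Pool.Agent.LibHP
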