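import Pool.Agent.LibCH33.Defs

/-!
Chains of moves: the definition used in the statement.
-/

set_option autoImplicit false
open AlgebraicGeometry CategoryTheory

namespace Pool.Agent.LibHP

/-- Two general points of `X` are joined by a chain of members of one family of rational varieties
with dense rational parameters: `M` is the function field of the parameter variety, `i` the base
point, `σ` the generic point of the generic member, and `(y, y')` is the pair of the end points of
the generic chain of a family of chains with function field `E`. The pair is generic in `X × X`, and
the function field of `X × X` is algebraically closed in `E`. -/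
def ChainJoined {k : Type} [Field k] {X : Scheme} [IsIntegral X]
    (f : X ⟶ Spec (CommRingCat.of k)) (M E : Type) [Field M] [Algebra k M] [Field E]
    [Algebra k E] (r : ℕ) : Prop :=
  letI : Algebra k X.functionField := (toStalk f (genericPoint X)).toAlgebra
  ∃ (i : X.functionField →ₐ[k] M) (σ : X.functionField →ₐ[k] RF M r)
    (y y' : X.functionField →ₐ[k] E),
    DensePts k M ∧ IsMove (i : X.functionField →+* M) (σ : X.functionField →+* RF M r) ∧
    Chain k (i : X.functionField →+* M) (σ : X.functionField →+* RF M r)
      (y : X.functionField →+* E) (y' : X.functionField →+* E) ∧
    LinDisj k (y : X.functionField →+* E) (y' : X.functionField →+* E) ∧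
    ∀ e : E, IsAlgebraic (Subfield.closure (Set.range y ∪ Set.range y')) e →
      e ∈ Subfield.closure (Set.range y ∪ Set.range y')

end Pool.Agent.LibHP
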